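import Pool.Agent.Run7.h190.GT.Ker

/-!
# The action of a group on multilinear maps
-/

open Finset Function

set_option linter.unusedSectionVars false
set_option linter.deprecated false

namespace Run7.h190.GT

variable {K : Type} [Field K] {T : Type} [AddCommGroup T] [Module K T]
  {V : Type} [AddCommGroup V] [Module K V] {S : Type} {Γ : Type} [Group Γ]

/-- the action on multilinear maps -/
noncomputable def act (ρ : Γ →* (T →ₗ[K] T)) (τ : Γ →* (V →ₗ[K] V)) (S : Type) (g : Γ) :
    Mul K T V S →ₗ[K] Mul K T V S where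
  toFun h := (τ g).compMultilinearMap (h.compLinearMap fun _ => ρ g⁻¹)
  map_add' h h' := by
    ext v
    simp
  map_smul' c h := by
    ext v
    simp

theorem act_apply (ρ : Γ →* (T →ₗ[K] T)) (τ : Γ →* (V →ₗ[K] V)) (g : Γ) (h : Mul K T V S)
    (v : S → T) : act ρ τ S g h v = τ g (h fun a => ρ g⁻¹ (v a)) := rfl

theorem inv_apply (τ : Γ →* (V →ₗ[K] V)) (g : Γ) (x : V) : τ g⁻¹ (τ g x) = x := by
  rw [← Module.End.mul_apply, ← map_mul, inv_mul_cancel, map_one]
  rfl

theorem apply_inv (τ : Γ →* (V →ₗ[K] V)) (g : Γ) (x : V) : τ g (τ g⁻¹ x) = x := by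
  rw [← Module.End.mul_apply, ← map_mul, mul_inv_cancel, map_one]
  rfl

variable {B : T →ₗ[K] T →ₗ[K] K} {ρ : Γ →* (T →ₗ[K] T)} {τ : Γ →* (V →ₗ[K] V)} {μ : Γ →* Kˣ}
  (hB : ∀ g x y, B (ρ g x) (ρ g y) = (μ g : K) * B x y)

include hB in
theorem B_inv (g : Γ) (x y : T) : B (ρ g x) y = (μ g : K) * B x (ρ g⁻¹ y) := by
  rw [← hB, apply_inv]

/-- conjugation, with a twist -/
noncomputable def conj (lam : Γ →* Kˣ) (τ : Γ →* (V →ₗ[K] V)) :
    Γ →* ((V →ₗ[K] V) →ₗ[K] (V →ₗ[K] V)) where
  toFun g :=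
    { toFun := fun A => (lam g : K) • (τ g * A * τ g⁻¹)
      map_add' := fun A A' => by rw [mul_add, add_mul, smul_add]
      map_smul' := fun c A => by
        rw [mul_smul_comm, smul_mul_assoc, smul_comm, RingHom.id_apply] }
  map_one' := by
    apply LinearMap.ext
    intro A
    change ((lam 1 : Kˣ) : K) • (τ 1 * A * τ 1⁻¹) = A
    rw [map_one, Units.val_one, one_smul, inv_one, map_one, one_mul, mul_one]
  map_mul' g g' := by
    apply LinearMap.ext
    intro A
    change ((lam (g * g') : Kˣ) : K) • (τ (g * g') * A * τ (g * g')⁻¹) =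
      (lam g : K) • (τ g * ((lam g' : K) • (τ g' * A * τ g'⁻¹)) * τ g⁻¹)
    rw [map_mul, Units.val_mul, mul_smul_comm, smul_mul_assoc, smul_smul, map_mul, mul_inv_rev,
      map_mul]
    congr 1

theorem conj_apply (lam : Γ →* Kˣ) (τ : Γ →* (V →ₗ[K] V)) (g : Γ) (A : V →ₗ[K] V) :
    conj lam τ g A = (lam g : K) • (τ g * A * τ g⁻¹) := rfl

theorem conj_apply_apply (lam : Γ →* Kˣ) (τ : Γ →* (V →ₗ[K] V)) (g : Γ) (A : V →ₗ[K] V) (x : V) :
    conj lam τ g A x = (lam g : K) • τ g (A (τ g⁻¹ x)) := rfl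

section

variable [Fintype S]

include hB in
theorem act_dec (g : Γ) (u : S → T) (x : V) : act ρ τ S g (dec B u x) =
    ((μ g : K) ^ Fintype.card S)⁻¹ • dec B (fun a => ρ g (u a)) (τ g x) := by
  ext v
  rw [act_apply, dec_apply, MultilinearMap.smul_apply, dec_apply, map_smul, smul_smul]
  congr 1
  simp only [B_inv hB]
  rw [Finset.prod_mul_distrib, Finset.prod_const, Finset.card_univ, ← mul_assoc,
    inv_mul_cancel₀ (pow_ne_zero _ (Units.ne_zero _)), one_mul]

variable [DecidableEq S]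

/-- equivariant kernels -/
def EqK (ρ : Γ →* (T →ₗ[K] T)) (τ : Γ →* (V →ₗ[K] V)) (μ : Γ →* Kˣ) (Δ : Subgroup Γ)
    (𝓗 : MultilinearMap K (fun _ : S ⊕ S => T) (V →ₗ[K] V)) : Prop :=
  ∀ g ∈ Δ, ∀ v, 𝓗 (fun j => ρ g (v j)) = conj (μ ^ Fintype.card S) τ g (𝓗 v)

theorem EqK.eqv {Δ : Subgroup Γ} [Δ.FiniteIndex]
    {𝓗 : MultilinearMap K (fun _ : S ⊕ S => T) (V →ₗ[K] V)} (h : EqK ρ τ μ Δ 𝓗) :
    Pool.Agent.TH125.Gal.Eqv ρ (conj (μ ^ Fintype.card S) τ) 𝓗 := ⟨Δ, inferInstance, h⟩

include hB in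
theorem ker_eqK {Δ : Subgroup Γ} {P : Mul K T V S →ₗ[K] Mul K T V S}
    (hP : ∀ g ∈ Δ, ∀ h, P (act ρ τ S g h) = act ρ τ S g (P h)) : EqK ρ τ μ Δ (ker B P) := by
  intro g hg v
  apply LinearMap.ext
  intro x
  have h1 : dec B ((fun j => ρ g (v j)) ∘ Sum.inl) x =
      ((μ g : K) ^ Fintype.card S) • act ρ τ S g (dec B (v ∘ Sum.inl) (τ g⁻¹ x)) := by
    rw [act_dec hB, smul_smul, mul_inv_cancel₀ (pow_ne_zero _ (Units.ne_zero _)), one_smul,
      apply_inv]
    rfl
  rw [ker_apply, h1, map_smul, hP g hg, MultilinearMap.smul_apply, act_apply, conj_apply_apply,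
    ker_apply, MonoidHom.pow_apply, Units.val_pow_eq_pow_val]
  congr 3
  funext a
  exact inv_apply ρ g (v (Sum.inr a))

include hB in
theorem Op_eqv {J : Type} [Fintype J] [DecidableEq J] (d : DB J B) {Δ : Subgroup Γ}
    {𝓗 : MultilinearMap K (fun _ : S ⊕ S => T) (V →ₗ[K] V)} (h : EqK ρ τ μ Δ 𝓗) {g : Γ}
    (hg : g ∈ Δ) (f : Mul K T V S) :
    Op d 𝓗 (act ρ τ S g f) = act ρ τ S g (Op d 𝓗 f) := by
  have h1 : Op d 𝓗 ∘ₗ act ρ τ S g = act ρ τ S g ∘ₗ Op d 𝓗 := by
    refine ext_dec d fun u x => MultilinearMap.ext fun s => ?_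
    rw [LinearMap.comp_apply, act_dec hB, map_smul, MultilinearMap.smul_apply, Op_dec,
      LinearMap.comp_apply, act_apply, Op_dec]
    have h2 := h g hg (Sum.elim u fun a => ρ g⁻¹ (s a))
    have h3 : (fun j => ρ g (Sum.elim u (fun a => ρ g⁻¹ (s a)) j)) =
        Sum.elim (fun a => ρ g (u a)) s := by
      funext j
      rcases j with j | j
      · rfl
      · exact apply_inv ρ g (s j)
    rw [h3] at h2
    rw [h2, conj_apply_apply, inv_apply, MonoidHom.pow_apply, Units.val_pow_eq_pow_val, smul_smul,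
      inv_mul_cancel₀ (pow_ne_zero _ (Units.ne_zero _)), one_smul]
  exact LinearMap.congr_fun h1 f

end

/-! ### matchings -/

section beta

variable {X : Type} {m : ℕ}

/-- the product of the values of the form at the pairs -/
noncomputable def beta (B : T →ₗ[K] T →ₗ[K] K) (e : Fin m × Fin 2 ≃ X) (v : X → T) : K :=
  ∏ l, B (v (e (l, 0))) (v (e (l, 1)))

/-- the dependence on one variable -/
theorem beta_update [DecidableEq X] (e : Fin m × Fin 2 ≃ X) (v : X → T) (i : X) (y : T) :
    beta B e (update v i y) = (if (e.symm i).2 = 0 then B y (v (e ((e.symm i).1, 1))) else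
      B (v (e ((e.symm i).1, 0))) y) *
      ∏ l ∈ univ.erase (e.symm i).1, B (v (e (l, 0))) (v (e (l, 1))) := by
  obtain ⟨⟨l, j⟩, rfl⟩ := e.surjective i
  rw [Equiv.symm_apply_apply]
  rw [beta, ← Finset.mul_prod_erase univ _ (mem_univ l)]
  congr 1
  · by_cases hj : j = 0
    · subst hj
      rw [if_pos rfl, update_self, update_of_ne]
      intro h
      have := (Prod.mk.inj (e.injective h)).2
      exact absurd this (by decide)
    · obtain rfl : j = 1 := by omega
      rw [if_neg one_ne_zero, update_self, update_of_ne]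
      intro h
      have := (Prod.mk.inj (e.injective h)).2
      exact absurd this (by decide)
  · refine Finset.prod_congr rfl fun l' hl' => ?_
    have hne := Finset.ne_of_mem_erase hl'
    rw [update_of_ne, update_of_ne]
    · intro h
      exact hne (Prod.mk.inj (e.injective h)).1
    · intro h
      exact hne (Prod.mk.inj (e.injective h)).1

/-- the multilinear map of a matching -/
noncomputable def bm (B : T →ₗ[K] T →ₗ[K] K) (e : Fin m × Fin 2 ≃ X) (A : V) :
    MultilinearMap K (fun _ : X => T) V where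
  toFun v := beta B e v • A
  map_update_add' := by
    intro _ v i y z
    rw [beta_update, beta_update, beta_update, ← add_smul, ← add_mul]
    congr 2
    split
    · rw [map_add, LinearMap.add_apply]
    · rw [map_add]
  map_update_smul' := by
    intro _ v i c y
    rw [beta_update, beta_update, smul_smul, ← mul_assoc]
    congr 2
    split
    · rw [map_smul, LinearMap.smul_apply, smul_eq_mul]
    · rw [map_smul, smul_eq_mul]

theorem bm_apply (e : Fin m × Fin 2 ≃ X) (A : V) (v : X → T) : bm B e A v = beta B e v • A := rfl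

include hB in
theorem beta_act (e : Fin m × Fin 2 ≃ X) (g : Γ) (v : X → T) :
    beta B e (fun i => ρ g (v i)) = (μ g : K) ^ m * beta B e v := by
  rw [beta, beta]
  simp only [hB]
  rw [Finset.prod_mul_distrib, Finset.prod_const, Finset.card_univ, Fintype.card_fin]

end beta

end Run7.h190.GT
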