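import Pool.Agent.Run7.h190.GT.Core

/-!
# The structure of effective submodules of spaces of multilinear maps
-/

open Finset Function

set_option linter.unusedSectionVars false
set_option linter.deprecated false

namespace Run7.h190.GT

open Pool.Agent.TH125.Gal Pool.Agent.TH118.SG

variable {K : Type} [Field K] [CharZero K] {T : Type} [AddCommGroup T] [Module K T]
  {V : Type} [AddCommGroup V] [Module K V] {Γ : Type} [Group Γ]
  {B : T →ₗ[K] T →ₗ[K] K} {ρ : Γ →* (T →ₗ[K] T)} {τ : Γ →* (V →ₗ[K] V)} {μ χ : Γ →* Kˣ}

theorem Good.zero (N : ℕ → Submodule K V) (n : ℕ) (S : Type) (ν : ℕ) :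
    Good N B n S ν (0 : Mul K T V S) :=
  Good.val fun s => by rw [MultilinearMap.zero_apply]; exact Submodule.zero_mem _

theorem Good.sum {N : ℕ → Submodule K V} {n : ℕ} {S : Type} {ν : ℕ} {ι : Type} (I : Finset ι)
    {h : ι → Mul K T V S} (H : ∀ i ∈ I, Good N B n S ν (h i)) : Good N B n S ν (∑ i ∈ I, h i) := by
  classical
  induction I using Finset.induction_on with
  | empty => rw [Finset.sum_empty]; exact Good.zero _ _ _ _
  | insert i I hi ih =>
    rw [Finset.sum_insert hi]
    exact (H i (Finset.mem_insert_self _ _)).add (ih fun j hj => H j (Finset.mem_insert_of_mem hj))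

/-- inserting a pair -/
noncomputable def ins (B : T →ₗ[K] T →ₗ[K] K) {S : Type} (a b : S) (hab : a ≠ b) :
    Mul K T V {x : S // x ≠ a ∧ x ≠ b} →ₗ[K] Mul K T V S where
  toFun g :=
    { toFun := fun s => B (s a) (s b) • g fun x => s x.1
      map_update_add' := by
        intro _ s i y z
        by_cases hi : i ≠ a ∧ i ≠ b
        · have h1 : ∀ w, (fun x : {x : S // x ≠ a ∧ x ≠ b} => update s i w x.1) =
              update (fun x : {x : S // x ≠ a ∧ x ≠ b} => s x.1) ⟨i, hi⟩ w := by
            intro w
            funext x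
            by_cases hx : x = ⟨i, hi⟩
            · subst hx
              rw [update_self, update_self]
            · rw [update_of_ne hx, update_of_ne fun h => hx (Subtype.ext h)]
          rw [h1, h1, h1, MultilinearMap.map_update_add, update_of_ne (Ne.symm hi.1),
            update_of_ne (Ne.symm hi.1), update_of_ne (Ne.symm hi.1), update_of_ne (Ne.symm hi.2),
            update_of_ne (Ne.symm hi.2), update_of_ne (Ne.symm hi.2), smul_add]
        · have h1 : ∀ w, (fun x : {x : S // x ≠ a ∧ x ≠ b} => update s i w x.1) =
              fun x : {x : S // x ≠ a ∧ x ≠ b} => s x.1 := by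
            intro w
            funext x
            rw [update_of_ne]
            rintro h
            exact hi (h ▸ x.2)
          rw [h1, h1, h1]
          by_cases hia : i = a
          · subst hia
            rw [update_self, update_self, update_self, update_of_ne (Ne.symm hab),
              update_of_ne (Ne.symm hab), update_of_ne (Ne.symm hab), map_add,
              LinearMap.add_apply, add_smul]
          · obtain rfl : i = b := by
              by_contra hib
              exact hi ⟨hia, hib⟩
            rw [update_self, update_self, update_self, update_of_ne hab,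
              update_of_ne hab, update_of_ne hab, map_add, add_smul]
      map_update_smul' := by
        intro _ s i c y
        by_cases hi : i ≠ a ∧ i ≠ b
        · have h1 : ∀ w, (fun x : {x : S // x ≠ a ∧ x ≠ b} => update s i w x.1) =
              update (fun x : {x : S // x ≠ a ∧ x ≠ b} => s x.1) ⟨i, hi⟩ w := by
            intro w
            funext x
            by_cases hx : x = ⟨i, hi⟩
            · subst hx
              rw [update_self, update_self]
            · rw [update_of_ne hx, update_of_ne fun h => hx (Subtype.ext h)]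
          rw [h1, h1, MultilinearMap.map_update_smul, update_of_ne (Ne.symm hi.1),
            update_of_ne (Ne.symm hi.1), update_of_ne (Ne.symm hi.2),
            update_of_ne (Ne.symm hi.2), smul_comm]
        · have h1 : ∀ w, (fun x : {x : S // x ≠ a ∧ x ≠ b} => update s i w x.1) =
              fun x : {x : S // x ≠ a ∧ x ≠ b} => s x.1 := by
            intro w
            funext x
            rw [update_of_ne]
            rintro h
            exact hi (h ▸ x.2)
          rw [h1, h1]
          by_cases hia : i = a
          · subst hia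
            rw [update_self, update_self, update_of_ne (Ne.symm hab),
              update_of_ne (Ne.symm hab), map_smul,
              LinearMap.smul_apply, smul_assoc]
          · obtain rfl : i = b := by
              by_contra hib
              exact hi ⟨hia, hib⟩
            rw [update_self, update_self, update_of_ne hab,
              update_of_ne hab, map_smul, smul_assoc] }
  map_add' g g' := by
    ext s
    exact smul_add _ _ _
  map_smul' c g := by
    ext s
    exact smul_comm _ _ _

theorem ins_apply {S : Type} {a b : S} (hab : a ≠ b)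
    (g : Mul K T V {x : S // x ≠ a ∧ x ≠ b}) (s : S → T) :
    ins B a b hab g s = B (s a) (s b) • g fun x => s x.1 := rfl

theorem ins_act (hB : ∀ g x y, B (ρ g x) (ρ g y) = (μ g : K) * B x y) {S : Type} {a b : S}
    (hab : a ≠ b) (γ : Γ) (g : Mul K T V {x : S // x ≠ a ∧ x ≠ b}) :
    act ρ τ S γ (ins B a b hab g) = (μ γ : K)⁻¹ • ins B a b hab (act ρ τ _ γ g) := by
  ext s
  rw [act_apply, ins_apply, MultilinearMap.smul_apply, ins_apply, act_apply, hB, map_smul,
    smul_smul, map_inv, Units.val_inv_eq_inv_val]

theorem ins_inj {S : Type} [DecidableEq S] {a b : S} (hab : a ≠ b) {x0 y0 : T} (h0 : B x0 y0 ≠ 0) :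
    Injective (ins (V := V) B a b hab) := by
  rw [injective_iff_map_eq_zero]
  intro g hg
  ext s
  set s' : S → T := fun c => if h : c ≠ a ∧ c ≠ b then s ⟨c, h⟩ else if c = a then x0 else y0
    with hs'
  have h1 : ins B a b hab g s' = 0 := by rw [hg, MultilinearMap.zero_apply]
  rw [ins_apply] at h1
  have ha : s' a = x0 := by
    rw [hs']
    beta_reduce
    rw [dif_neg (fun h => h.1 rfl), if_pos rfl]
  have hb : s' b = y0 := by
    rw [hs']
    beta_reduce
    rw [dif_neg (fun h => h.2 rfl), if_neg (Ne.symm hab)]
  have hr : (fun x : {x : S // x ≠ a ∧ x ≠ b} => s' x.1) = s := by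
    funext x
    rw [hs']
    beta_reduce
    rw [dif_pos x.2]
  rw [ha, hb, hr] at h1
  exact (smul_eq_zero.1 h1).resolve_left h0

theorem beta_out {m : ℕ} {S : Type} {e : Fin m × Fin 2 ≃ S ⊕ S} {l : Fin m} {a b : S}
    (h0 : e (l, 0) = Sum.inr a) (h1 : e (l, 1) = Sum.inr b) (u s s' : S → T)
    (hs : ∀ c, c ≠ a → c ≠ b → s c = s' c) :
    B (s' a) (s' b) * beta B e (Sum.elim u s) = B (s a) (s b) * beta B e (Sum.elim u s') := by
  rw [beta, beta, ← Finset.mul_prod_erase univ _ (mem_univ l),
    ← Finset.mul_prod_erase univ _ (mem_univ l), h0, h1, Sum.elim_inr, Sum.elim_inr, Sum.elim_inr,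
    Sum.elim_inr]
  have h2 : ∏ l' ∈ univ.erase l, B (Sum.elim u s (e (l', 0))) (Sum.elim u s (e (l', 1))) =
      ∏ l' ∈ univ.erase l, B (Sum.elim u s' (e (l', 0))) (Sum.elim u s' (e (l', 1))) := by
    refine Finset.prod_congr rfl fun l' hl' => ?_
    have hne := Finset.ne_of_mem_erase hl'
    have key : ∀ j, Sum.elim u s (e (l', j)) = Sum.elim u s' (e (l', j)) := by
      intro j
      cases hj : e (l', j) with
      | inl c => rfl
      | inr c =>
        rw [Sum.elim_inr, Sum.elim_inr]
        refine hs c ?_ ?_
        · rintro rfl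
          exact hne (Prod.mk.inj (e.injective (hj.trans h0.symm))).1
        · rintro rfl
          exact hne (Prod.mk.inj (e.injective (hj.trans h1.symm))).1
    rw [key, key]
  rw [h2]
  ring

/-- **Effective submodules consist of contractions.** -/
theorem good_of_eff [Module.Finite K T] [Module.Finite K V]
    (hB : ∀ g x y, B (ρ g x) (ρ g y) = (μ g : K) * B x y) {n : ℕ} (hμ : ∀ g, μ g = χ g ^ n)
    {s : ℤ} (hs : s = 1 ∨ s = -1) (hsy : ∀ x y, B x y = (s : K) * B y x)
    (hnd : ∀ x, (∀ y, B x y = 0) → x = 0)
    (hfull : ∀ (S : Type) [Fintype S] [DecidableEq S] (lam : Γ →* Kˣ),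
      (∀ g, χ g = 1 → lam g = 1) → ∀ u v,
        rk B v u - (s : K) • rk B u v ∈ LL S B ρ (conj lam τ))
    {𝓟 : Set Γ} {m : ℕ} (hord : ∀ F ∈ 𝓟, UnitEig B ρ F m) {N : ℕ → Submodule K V}
    (hN0 : N 0 = ⊤)
    (hGT : ∀ Δ : Subgroup Γ, Δ.FiniteIndex → ∀ (ν : ℕ) (U : Submodule K V),
      Stab (fun g => τ g) Δ U → EffF (fun g => τ g) 𝓟 χ (-(ν : ℤ)) Δ U → U ≤ N ν) (c : ℕ) :
    ∀ (S : Type) [Fintype S] [DecidableEq S], Fintype.card S = c → c ≤ m →
      (s = 1 → 2 * c < Module.finrank K T) → SSF (act (V := V) ρ τ S) →
      ∀ (ν : ℕ) (Δ : Subgroup Γ), Δ.FiniteIndex → ∀ U : Submodule K (Mul K T V S),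
        Stab (act ρ τ S) Δ U → EffF (act ρ τ S) 𝓟 χ ((n * Fintype.card S : ℕ) - (ν : ℤ)) Δ U →
        ∀ h ∈ U, Good N B n S ν h := by
  induction c using Nat.strong_induction_on with
  | _ c ih =>
  intro S _ _ hc hcm hbound hSS ν Δ₀ hΔ₀ U hst hU h hhU
  have hsK : (s : K) ≠ 0 := by
    rcases hs with rfl | rfl
    · simp
    · simp
  obtain ⟨Δ, hΔ, hle, P, hP1, hP2, hP3⟩ := exists_proj hSS hΔ₀ hst
  replace hst := hst.mono hle
  replace hU := hU.mono hle
  have hEq : EqK ρ τ μ Δ (ker B P) := ker_eqK hB hP3
  set t := Module.finBasis K T with ht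
  have hgen := Run7.h190.EV.gen_memS (S := S ⊕ S) (E := V →ₗ[K] V) hs hsy hnd
    (hfull (S ⊕ S) (μ ^ Fintype.card S) (fun g hg => by
      rw [MonoidHom.pow_apply, hμ, hg, one_pow, one_pow])) hEq.eqv t (fun h1 => by
        rw [Fintype.card_sum, Fintype.card_fin]
        have := hbound h1
        omega)
  obtain ⟨Nn, e, A, hli, hker⟩ := exists_kernels t hgen
  obtain ⟨d, hd⟩ := exists_DB hnd t
  -- commutation
  have hA : ∀ i, ∀ g ∈ Δ, ∀ x, A i (τ g x) = τ g (A i x) := by
    intro i g hg x
    have h1 : ∀ r : S ⊕ S → Fin (Module.finrank K T),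
        ∑ i, beta B (e i) (fun j => t (r j)) • (A i - τ g * A i * τ g⁻¹) = 0 := by
      intro r
      have h2 := hEq g hg (fun j => t (r j))
      rw [hker, MultilinearMap.sum_apply, MultilinearMap.sum_apply, map_sum] at h2
      have h3 : ∀ i, bm B (e i) (A i) (fun j => ρ g (t (r j))) =
          ((μ g : K) ^ Fintype.card S) • (beta B (e i) (fun j => t (r j)) • A i) := by
        intro i
        rw [bm_apply, beta_act hB, mul_smul]
      have h4 : ∀ i, conj (μ ^ Fintype.card S) τ g (bm B (e i) (A i) fun j => t (r j)) =
          ((μ g : K) ^ Fintype.card S) • (beta B (e i) (fun j => t (r j)) •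
            (τ g * A i * τ g⁻¹)) := by
        intro i
        rw [bm_apply, map_smul, conj_apply, MonoidHom.pow_apply, Units.val_pow_eq_pow_val, smul_comm]
      rw [Finset.sum_congr rfl fun i _ => h3 i, Finset.sum_congr rfl fun i _ => h4 i,
        ← Finset.smul_sum, ← Finset.smul_sum] at h2
      have h5 := smul_right_injective _ (pow_ne_zero (Fintype.card S) (Units.ne_zero (μ g))) h2
      rw [Finset.sum_congr rfl fun i _ => smul_sub _ _ _, Finset.sum_sub_distrib, h5, sub_self]
    have h6 := sub_eq_zero.1 (li_vec hli h1 i)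
    conv_lhs => rw [h6]
    rw [Module.End.mul_apply, Module.End.mul_apply, inv_apply]
  -- decomposition
  have hdec : h = ∑ i, Op d (bm B (e i) (A i)) h := by
    rw [← Op_sum, ← hker, Op_ker, hP2 h hhU]
  rw [hdec]
  refine Good.sum _ fun i _ => ?_
  have hOp : ∀ s, Op d (bm B (e i) (A i)) h s =
      ∑ r : S → Fin (Module.finrank K T), beta B (e i) (Sum.elim (fun a => d.ts (r a)) s) •
        A i (h fun a => d.t (r a)) := by
    intro s
    rw [Op_apply]
    rfl
  by_cases hthr : Thr (e i)
  · -- through matchings
    refine Good.val fun s => ?_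
    have h1 := hGT Δ hΔ ν (LinearMap.range (A i)) (by
      rintro g hg _ ⟨x, rfl⟩
      exact ⟨τ g x, hA i g hg x⟩)
      (thr_eff hB hμ hsK hsy hnd hord (hc ▸ hcm) t hli hU hP1 hP3 hker hA i hthr)
    rw [hOp]
    exact Submodule.sum_mem _ fun r _ => Submodule.smul_mem _ _ (h1 ⟨_, rfl⟩)
  · obtain ⟨l, a, b, ha, hb⟩ := exists_out (e i) hthr
    have hab : a ≠ b := ne_of_pair (e i) ha hb
    by_cases hB0 : ∃ x y, B x y ≠ 0
    · obtain ⟨x0, y0, h0⟩ := hB0
      set f := Op d (bm B (e i) (A i)) h with hf
      set g' : Mul K T V {x : S // x ≠ a ∧ x ≠ b} :=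
        (B x0 y0)⁻¹ • f.domDomRestrict (fun x => x ≠ a ∧ x ≠ b)
          (fun z => if z.1 = a then x0 else y0) with hg'
      have hfg : ∀ s, f s = B (s a) (s b) • g' fun x => s x.1 := by
        intro s
        set s' : S → T := fun c => if h : c ≠ a ∧ c ≠ b then s c else if c = a then x0 else y0
          with hs'
        have ha' : s' a = x0 := by
          rw [hs']
          beta_reduce
          rw [dif_neg (fun h => h.1 rfl), if_pos rfl]
        have hb' : s' b = y0 := by
          rw [hs']
          beta_reduce
          rw [dif_neg (fun h => h.2 rfl), if_neg (Ne.symm hab)]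
        have h1 : (g' fun x => s x.1) = (B x0 y0)⁻¹ • f s' := rfl
        have h2 : B x0 y0 • f s = B (s a) (s b) • f s' := by
          rw [hf, hOp, hOp, Finset.smul_sum, Finset.smul_sum]
          refine Finset.sum_congr rfl fun r _ => ?_
          rw [smul_smul, smul_smul]
          congr 1
          have h3 := beta_out (B := B) ha hb (fun a => d.ts (r a)) s s' (fun c hca hcb => by
            rw [hs']
            beta_reduce
            rw [dif_pos ⟨hca, hcb⟩])
          rwa [ha', hb'] at h3
        rw [h1, smul_comm, ← h2, smul_smul, inv_mul_cancel₀ h0, one_smul]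
      refine Good.pair a b hab g' ?_ hfg
      rcases Nat.lt_or_ge n ν with hnν | hnν
      · -- the induction
        have hcard : Fintype.card {x : S // x ≠ a ∧ x ≠ b} + 2 = c := by
          have h1 : Fintype.card {x : S // ¬ (x ≠ a ∧ x ≠ b)} = 2 := by
            rw [Fintype.card_subtype]
            have h2 : (univ.filter fun x : S => ¬ (x ≠ a ∧ x ≠ b)) = {a, b} := by
              ext x
              simp only [mem_filter, mem_univ, true_and, mem_insert, mem_singleton]
              tauto
            rw [h2, Finset.card_pair hab]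
          have h3 := Fintype.card_subtype_compl (fun x : S => x ≠ a ∧ x ≠ b)
          have h4 := Fintype.card_subtype_le (fun x : S => x ≠ a ∧ x ≠ b)
          omega
        have hOpeq : ∀ g ∈ Δ, ∀ h, Op d (bm B (e i) (A i)) (act ρ τ S g h) =
            act ρ τ S g (Op d (bm B (e i) (A i)) h) := by
          intro g hg h
          refine Op_eqv hB d (Δ := Δ) ?_ hg h
          intro g hg v
          rw [bm_apply, beta_act hB, bm_apply, map_smul, conj_apply, MonoidHom.pow_apply,
            Units.val_pow_eq_pow_val, mul_comm, mul_smul]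
          congr 2
          apply LinearMap.ext
          intro x
          rw [Module.End.mul_apply, Module.End.mul_apply, ← hA i g hg, apply_inv]
        refine ih (Fintype.card {x : S // x ≠ a ∧ x ≠ b}) (by omega) {x : S // x ≠ a ∧ x ≠ b} rfl
          (by omega) (fun h1 => by have := hbound h1; omega)
          (ssf_of_inj hSS (ins B a b hab) (ins_inj hab h0) (fun γ => (μ γ : K))
            (fun γ => Units.ne_zero _) (fun γ x => by
              rw [ins_act hB, smul_smul, mul_inv_cancel₀ (Units.ne_zero _), one_smul]))
          (ν - n) Δ hΔ ((U.map (Op d (bm B (e i) (A i)))).comap (ins B a b hab)) ?_ ?_ g' ?_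
        · rintro g hg u ⟨h1, hh1, hh1'⟩
          refine ⟨(μ g : K) • act ρ τ S g h1, Submodule.smul_mem _ _ (hst g hg h1 hh1), ?_⟩
          rw [map_smul, hOpeq g hg, hh1', ins_act hB, smul_smul,
            mul_inv_cancel₀ (Units.ne_zero _), one_smul]
        · rintro F hF k hk hFk b' u ⟨h1, hh1, hh1'⟩ hu0 hub
          have hne : ins B a b hab u ≠ 0 := fun h2 => hu0 (ins_inj hab h0 (h2.trans (map_zero _).symm))
          obtain ⟨z, hz0, hz⟩ := eig_transfer (V := U) ((act ρ τ S (F ^ k)).restrict (hst _ hFk))
            (Op d (bm B (e i) (A i)) ∘ₗ U.subtype) (act ρ τ S (F ^ k))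
            (fun x => hOpeq _ hFk x) U.subtype (act ρ τ S (F ^ k)) (c := 1)
            (fun x => by rw [one_smul]; rfl)
            (fun x hx => by
              have h2 : (x : Mul K T V S) = 0 := hx
              rw [LinearMap.comp_apply, Submodule.subtype_apply, h2, map_zero])
            (a := (μ (F ^ k) : K)⁻¹ * b') (y := ⟨h1, hh1⟩) (by
              change Op d (bm B (e i) (A i)) h1 ≠ 0
              rw [hh1']
              exact hne)
            (by
              change act ρ τ S (F ^ k) (Op d (bm B (e i) (A i)) h1) =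
                _ • Op d (bm B (e i) (A i)) h1
              rw [hh1', ins_act hB, hub, map_smul, smul_smul])
          have h4 := hU F hF k hk hFk _ _ z.2 hz0 hz
          have hχ0 : (χ (F ^ k) : K) ≠ 0 := Units.ne_zero _
          convert h4 using 1
          have h8 : (μ (F ^ k) : K) = (χ (F ^ k) : K) ^ (n : ℤ) := by
            rw [hμ, Units.val_pow_eq_pow_val, zpow_natCast]
          rw [one_mul, h8, ← zpow_neg, mul_comm _ b', mul_assoc, ← zpow_add₀ hχ0]
          congr 2
          rw [← hc] at hcard
          rw [← hcard]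
          push_cast [Nat.cast_sub hnν.le]
          ring
        · refine ⟨h, hhU, ?_⟩
          ext s
          rw [ins_apply]
          exact hfg s
      · refine Good.val fun s => ?_
        rw [Nat.sub_eq_zero_of_le hnν, hN0]
        exact Submodule.mem_top
    · -- the zero form
      push Not at hB0
      refine Good.val fun s => ?_
      have h1 : Op d (bm B (e i) (A i)) h s = 0 := by
        rw [hOp]
        refine Finset.sum_eq_zero fun r _ => ?_
        rw [beta, Finset.prod_eq_zero (mem_univ l) (hB0 _ _), zero_smul]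
      rw [h1]
      exact Submodule.zero_mem _

end Run7.h190.GT
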