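import Pool.Agent.Run7.h190.GT.Lin

/-!
# Effective submodules of spaces of multilinear maps
-/

open Finset Function

set_option linter.unusedSectionVars false
set_option linter.deprecated false

namespace Run7.h190.GT

variable {K : Type} [Field K] {T : Type} [AddCommGroup T] [Module K T]
  {V : Type} [AddCommGroup V] [Module K V] {Γ : Type} [Group Γ]

/-- sums of contractions with values in a filtration -/
inductive Good (N : ℕ → Submodule K V) (B : T →ₗ[K] T →ₗ[K] K) (n : ℕ) :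
    ∀ (S : Type), ℕ → Mul K T V S → Prop
  | val {S : Type} {ν : ℕ} {h : Mul K T V S} (H : ∀ s, h s ∈ N ν) : Good N B n S ν h
  | add {S : Type} {ν : ℕ} {h h' : Mul K T V S} : Good N B n S ν h → Good N B n S ν h' →
      Good N B n S ν (h + h')
  | pair {S : Type} {ν : ℕ} {h : Mul K T V S} (a b : S) (hab : a ≠ b)
      (g : Mul K T V {x : S // x ≠ a ∧ x ≠ b}) : Good N B n {x : S // x ≠ a ∧ x ≠ b} (ν - n) g →
      (∀ s, h s = B (s a) (s b) • g fun x => s x.1) → Good N B n S ν h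

/-- isotropic eigenvectors with unit eigenvalues -/
def UnitEig (B : T →ₗ[K] T →ₗ[K] K) (ρ : Γ →* (T →ₗ[K] T)) (F : Γ) (m : ℕ) : Prop :=
  ∀ O : ValuationSubring K, ∃ (r : ℕ) (w : Fin m → T) (α : Fin m → K), 0 < r ∧
    LinearIndependent K w ∧ (∀ i j, B (w i) (w j) = 0) ∧
    ∀ i, ρ (F ^ r) (w i) = α i • w i ∧ α i ∈ O ∧ (α i)⁻¹ ∈ O

variable {B : T →ₗ[K] T →ₗ[K] K} {ρ : Γ →* (T →ₗ[K] T)} {τ : Γ →* (V →ₗ[K] V)} {μ χ : Γ →* Kˣ}
  {S : Type} [Fintype S] [DecidableEq S]

theorem exists_duals [Module.Finite K T] {sg : K} (hsg : sg ≠ 0)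
    (hsy : ∀ x y, B x y = sg * B y x) (hnd : ∀ x, (∀ y, B x y = 0) → x = 0) {w : S → T}
    (hw : LinearIndependent K w) : ∃ ws : S → T, ∀ a b, B (w a) (ws b) = if a = b then 1 else 0 := by
  have hinj : Function.Injective B := by
    rw [injective_iff_map_eq_zero]
    intro x hx
    exact hnd x fun y => by rw [hx, LinearMap.zero_apply]
  have hdim : Module.finrank K T = Module.finrank K (Module.Dual K T) :=
    (Subspace.dual_finrank_eq).symm
  have hsurj : Function.Surjective B :=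
    (LinearMap.injective_iff_surjective_of_finrank_eq_finrank hdim).1 hinj
  have h1 : ∀ b : S, ∃ z : T, ∀ a, B (w a) z = if a = b then 1 else 0 := by
    intro b
    obtain ⟨g, hg⟩ := LinearMap.exists_extend
      ((Finsupp.lapply b : (S →₀ K) →ₗ[K] K) ∘ₗ (hw.repr : Submodule.span K (Set.range w) →ₗ[K] _))
    obtain ⟨z, hz⟩ := hsurj g
    refine ⟨sg⁻¹ • z, fun a => ?_⟩
    have h2 : g (w a) = if a = b then 1 else 0 := by
      have h3 := LinearMap.congr_fun hg ⟨w a, Submodule.subset_span ⟨a, rfl⟩⟩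
      have h4 : g (w a) = (Finsupp.lapply b : (S →₀ K) →ₗ[K] K)
        (hw.repr ⟨w a, Submodule.subset_span ⟨a, rfl⟩⟩) := h3
      rw [h4, hw.repr_eq_single a _ rfl, Finsupp.lapply_apply, Finsupp.single_apply]
    rw [map_smul, hsy, hz, h2, smul_eq_mul, ← mul_assoc, inv_mul_cancel₀ hsg, one_mul]
  choose ws hws using h1
  exact ⟨ws, fun a b => hws b a⟩

theorem eval_thr {sg : K} (hsg : sg ≠ 0) (hsy : ∀ x y, B x y = sg * B y x) {J : Type} [Fintype J]
    (t : J → T) {N : ℕ} {e : Fin N → Fin (Fintype.card S) × Fin 2 ≃ S ⊕ S}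
    (hli : LinearIndependent K (fun i => fun r : S ⊕ S → J => beta B (e i) fun j => t (r j)))
    {w ws : S → T} (hw : ∀ a b, B (w a) (w b) = 0)
    (hws : ∀ a b, B (w a) (ws b) = if a = b then 1 else 0) (i : Fin N) (hi : Thr (e i)) :
    ∃ (ε : K) (s : S → T), ε ≠ 0 ∧ ∀ A : Fin N → V,
      ∑ j, beta B (e j) (Sum.elim w s) • A j = ε • A i := by
  obtain ⟨ε, σ, hε, hσ, h1⟩ := hi.perm (e i) hsg hsy
  refine ⟨ε, fun b => ws (σ b), hε, fun A => ?_⟩
  rw [Finset.sum_eq_single i]
  · congr 1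
    rw [h1]
    have h2 : ∏ b, B (w (σ b)) (ws (σ b)) = 1 := Finset.prod_eq_one fun b _ => by
      rw [hws, if_pos rfl]
    rw [h2, mul_one]
  · intro j _ hj
    have h3 : beta B (e j) (Sum.elim w fun b => ws (σ b)) = 0 := by
      by_cases hthr : Thr (e j)
      · obtain ⟨ε', σ', hε', hσ', h1'⟩ := hthr.perm (e j) hsg hsy
        have hne : σ' ≠ σ := by
          rintro rfl
          have h4 : (fun r : S ⊕ S → J => beta B (e j) fun j => t (r j)) ∈
              Submodule.span K ((fun i => fun r : S ⊕ S → J => beta B (e i) fun j => t (r j)) ''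
                {i}) := by
            rw [Set.image_singleton]
            refine Submodule.mem_span_singleton.2 ⟨ε' * ε⁻¹, ?_⟩
            funext r
            have h5 : (fun j => t (r j)) = Sum.elim (fun a => t (r (Sum.inl a)))
                (fun a => t (r (Sum.inr a))) := by
              funext x
              rcases x with x | x <;> rfl
            rw [Pi.smul_apply, smul_eq_mul, h5, h1, h1', mul_assoc, ← mul_assoc ε⁻¹,
              inv_mul_cancel₀ hε, one_mul]
          exact hli.notMem_span_image (s := {i}) (x := j) (by simpa using hj) h4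
        obtain ⟨b, hb⟩ := Function.ne_iff.1 hne
        rw [h1', Finset.prod_eq_zero (mem_univ b), mul_zero]
        rw [hws, if_neg hb]
      · obtain ⟨l, a, b, ha, hb⟩ := exists_in (e j) hthr
        rw [beta]
        refine Finset.prod_eq_zero (mem_univ l) ?_
        rw [ha, hb, Sum.elim_inl, Sum.elim_inl, hw]
    rw [h3, zero_smul]
  · intro h
    exact absurd (mem_univ i) h

theorem dec_smul_univ (c : S → K) (t : S → T) (x : V) :
    dec B (fun a => c a • t a) x = (∏ a, c a) • dec B t x := by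
  ext v
  simp only [dec_apply, MultilinearMap.smul_apply, map_smul, LinearMap.smul_apply, smul_eq_mul]
  rw [Finset.prod_mul_distrib, mul_smul]

theorem eig_pow_apply (ρ : Γ →* (T →ₗ[K] T)) {g : Γ} {w : T} {α : K} (h : ρ g w = α • w) (k : ℕ) :
    ρ (g ^ k) w = α ^ k • w := by
  induction k with
  | zero => rw [pow_zero, map_one, pow_zero, one_smul]; rfl
  | succ k ih =>
    rw [pow_succ, map_mul, Module.End.mul_apply, h, map_smul, ih, smul_smul, pow_succ, mul_comm]

/-- the decomposable maps, linear in the value -/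
noncomputable def decL (B : T →ₗ[K] T →ₗ[K] K) (t : S → T) : V →ₗ[K] Mul K T V S where
  toFun x := dec B t x
  map_add' x y := dec_add_right B t x y
  map_smul' c x := dec_smul_right B t c x

theorem val_prod {ι : Type*} {I : Finset ι} {f : ι → K} {O : ValuationSubring K}
    (h : ∀ i ∈ I, f i ∈ O) : ∏ i ∈ I, f i ∈ O := prod_mem h

/-- **The ranges of the through matchings are effective.** -/
theorem thr_eff [Module.Finite K T] [Module.Finite K V]
    (hB : ∀ g x y, B (ρ g x) (ρ g y) = (μ g : K) * B x y) {n : ℕ} (hμ : ∀ g, μ g = χ g ^ n)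
    {sg : K} (hsg : sg ≠ 0) (hsy : ∀ x y, B x y = sg * B y x)
    (hnd : ∀ x, (∀ y, B x y = 0) → x = 0) {𝓟 : Set Γ} {m : ℕ}
    (hord : ∀ F ∈ 𝓟, UnitEig B ρ F m) (hm : Fintype.card S ≤ m) {J : Type} [Fintype J]
    (t : J → T) {N : ℕ} {e : Fin N → Fin (Fintype.card S) × Fin 2 ≃ S ⊕ S}
    (hli : LinearIndependent K (fun i => fun r : S ⊕ S → J => beta B (e i) fun j => t (r j)))
    {Δ : Subgroup Γ} {U : Submodule K (Mul K T V S)} {ν : ℕ}
    (hU : EffF (act ρ τ S) 𝓟 χ ((n * Fintype.card S : ℕ) - (ν : ℤ)) Δ U)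
    {P : Mul K T V S →ₗ[K] Mul K T V S} (hPU : ∀ h, P h ∈ U)
    (hPc : ∀ g ∈ Δ, ∀ h, P (act ρ τ S g h) = act ρ τ S g (P h)) {A : Fin N → (V →ₗ[K] V)}
    (hker : ker B P = ∑ i, bm B (e i) (A i)) (hA : ∀ i, ∀ g ∈ Δ, ∀ x, A i (τ g x) = τ g (A i x))
    (i : Fin N) (hi : Thr (e i)) :
    EffF (fun g => τ g) 𝓟 χ (-(ν : ℤ)) Δ (LinearMap.range (A i)) := by
  rintro F hF k hk hFk a _ ⟨y, rfl⟩ hu0 hau
  refine isIntegral_of_val fun O => ?_
  obtain ⟨r, w, α, hr, hwli, hww, hwα⟩ := hord F hF O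
  set ι : S → Fin m := fun s => Fin.castLE hm (Fintype.equivFin S s) with hι
  have hιinj : Function.Injective ι := (Fin.castLE_injective hm).comp (Fintype.equivFin S).injective
  have hwli' : LinearIndependent K fun s => w (ι s) := hwli.comp ι hιinj
  obtain ⟨ws, hws⟩ := exists_duals hsg hsy hnd hwli'
  obtain ⟨ε, s, hε, hev⟩ := eval_thr (V := V) hsg hsy t hli (w := fun s => w (ι s))
    (fun a b => hww _ _) hws i hi
  have hα0 : ∀ i, α i ≠ 0 := by
    intro i h0
    have h1 := (hwα i).1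
    rw [h0, zero_smul] at h1
    have h2 := inv_apply ρ (F ^ r) (w i)
    rw [h1, map_zero] at h2
    exact hwli.ne_zero i h2.symm
  have hg : F ^ (k * r) ∈ Δ := by
    rw [pow_mul]
    exact Subgroup.pow_mem _ hFk _
  have hρ : ∀ s, ρ (F ^ (k * r)) (w (ι s)) = α (ι s) ^ k • w (ι s) := by
    intro s
    rw [mul_comm, pow_mul]
    exact eig_pow_apply ρ (hwα _).1 k
  have hτ : τ (F ^ (k * r)) (A i y) = a ^ r • A i y := by
    rw [pow_mul]
    exact eig_pow_apply τ hau r
  set g := F ^ (k * r) with hgdef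
  have hact : ∀ x, act ρ τ S g (dec B (fun s => w (ι s)) x) =
      (((μ g : K) ^ Fintype.card S)⁻¹ * ∏ s, α (ι s) ^ k) • dec B (fun s => w (ι s)) (τ g x) := by
    intro x
    rw [act_dec hB, funext hρ, dec_smul_univ, smul_smul]
  obtain ⟨z, hz0, hz⟩ := eig_transfer (τ g) (A i) (τ g) (hA i g hg)
    (P ∘ₗ decL B (fun s => w (ι s))) (act ρ τ S g)
    (c := ((μ g : K) ^ Fintype.card S)⁻¹ * ∏ s, α (ι s) ^ k)
    (fun x => by
      change act ρ τ S g (P (dec B (fun s => w (ι s)) x)) =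
        _ • P (dec B (fun s => w (ι s)) (τ g x))
      rw [← hPc g hg, hact, map_smul])
    (fun x hx => by
      have h1 : P (dec B (fun s => w (ι s)) x) = 0 := hx
      have h2 : P (dec B (fun s => w (ι s)) x) s =
          ∑ j, beta B (e j) (Sum.elim (fun s => w (ι s)) s) • A j x := by
        have h3 := ker_apply B P (Sum.elim (fun s => w (ι s)) s) x
        rw [Sum.elim_comp_inl, Sum.elim_comp_inr] at h3
        rw [← h3, hker, MultilinearMap.sum_apply, LinearMap.sum_apply]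
        rfl
      rw [h1, MultilinearMap.zero_apply, hev fun j => A j x] at h2
      exact (smul_eq_zero.1 h2.symm).resolve_left hε) hu0 hτ
  have h4 := hU F hF (k * r) (Nat.mul_pos hk hr) hg _ _ (hPU _) hz0 hz
  have h5 := val_of_isIntegral h4 O
  have hχ0 : (χ g : K) ≠ 0 := Units.ne_zero _
  have h6 : ((μ g : K) ^ Fintype.card S)⁻¹ * (∏ s, α (ι s) ^ k) * a ^ r *
      (χ (F ^ (k * r)) : K) ^ (((n * Fintype.card S : ℕ) : ℤ) - (ν : ℤ)) =
      (∏ s, α (ι s) ^ k) * (a * (χ (F ^ k) : K) ^ (-(ν : ℤ))) ^ r := by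
    have h7 : (χ g : K) = (χ (F ^ k) : K) ^ r := by
      rw [hgdef, pow_mul, map_pow (f := χ) (F ^ k) r, Units.val_pow_eq_pow_val]
    have h8 : (μ g : K) = (χ g : K) ^ n := by
      rw [hμ, Units.val_pow_eq_pow_val]
    rw [← hgdef, zpow_sub₀ hχ0, h8, ← pow_mul, zpow_natCast, zpow_natCast, mul_pow, zpow_neg,
      zpow_natCast, inv_pow, ← pow_mul, mul_comm ν r, pow_mul ((χ (F ^ k) : Kˣ) : K) r ν, ← h7]
    field_simp
  rw [h6] at h5
  have h9 : (∏ s, α (ι s) ^ k)⁻¹ ∈ O := by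
    rw [← Finset.prod_inv_distrib]
    refine val_prod fun s _ => ?_
    rw [← inv_pow]
    exact pow_mem (hwα _).2.2 k
  have h10 : (∏ s, α (ι s) ^ k) ≠ 0 := Finset.prod_ne_zero_iff.2 fun s _ => pow_ne_zero _ (hα0 _)
  refine val_pow hr O ?_
  have h11 := mul_mem h9 h5
  rwa [← mul_assoc, inv_mul_cancel₀ h10, one_mul] at h11

end Run7.h190.GT
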