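import Pool.Agent.Run7.h190.GT.Step
import Pool.Agent.Run7.h190.EV.Tate

/-!
# The full Lie algebras for the endomorphisms of a representation
-/

open CategoryTheory AlgebraicGeometry Finset

set_option linter.unusedSectionVars false
set_option linter.deprecated false

universe u

namespace Run7.h190.GT

open Pool.Agent.TH125.Gal Pool.Agent.TH118.SG Pool.Agent.V11219.IsoF Pool.Agent.V11219.Loc
open Pool.Agent.V11219.Quad Run7.h190.EV
open Pool.Agent.H914 Pool.Agent.H914.VarClass Pool.Agent.H914.VarClass.Obj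
  Pool.Agent.H914.WeilCohomology Pool.Agent.H281R3.HT Pool.Agent.W552 Pool.Agent.H447

section conj

variable {K : Type} [Field K] {V : Type} [AddCommGroup V] [Module K V]
  {Γ : Type} [Group Γ] {τ : Γ →* (V →ₗ[K] V)} {lam : Γ →* Kˣ}

/-- Eigenvalues of the conjugation. -/
theorem conj_eigIn [IsAlgClosed K] [Module.Finite K V] {Λ : Subgroup Kˣ} {g : Γ}
    (hlam : lam g = 1) (h : Pool.Agent.V11219.IsoF.EigIn Λ (τ g)) :
    Pool.Agent.V11219.IsoF.EigIn Λ (conj lam τ g) := by
  intro a A hA hAa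
  have h1 : ∀ x, τ g (A x) = a • A (τ g x) := by
    intro x
    have h2 := LinearMap.congr_fun hAa (τ g x)
    rw [conj_apply_apply, hlam, Units.val_one, one_smul, inv_apply, LinearMap.smul_apply] at h2
    exact h2
  have ha0 : a ≠ 0 := by
    rintro rfl
    apply hA
    apply LinearMap.ext
    intro x
    have h2 := h1 x
    rw [zero_smul] at h2
    have h3 := inv_apply τ g (A x)
    rw [h2, map_zero] at h3
    exact h3.symm
  -- an eigenvector in the range
  have hst : ∀ y ∈ LinearMap.range A, τ g y ∈ LinearMap.range A := by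
    rintro _ ⟨x, rfl⟩
    exact ⟨a • τ g x, by rw [map_smul, h1]⟩
  have hne : Nontrivial (LinearMap.range A) := by
    rw [Submodule.nontrivial_iff_ne_bot]
    intro h2
    apply hA
    rwa [LinearMap.range_eq_bot] at h2
  obtain ⟨c, hc⟩ := Module.End.exists_eigenvalue ((τ g).restrict hst)
  obtain ⟨⟨_, ⟨x, rfl⟩⟩, hv⟩ := hc.exists_hasEigenvector
  have hv0 : A x ≠ 0 := fun h2 => hv.2 (Subtype.ext h2)
  have hvc : τ g (A x) = c • A x := congrArg Subtype.val hv.apply_eq_smul
  obtain ⟨l, hl, hlc⟩ := h c (A x) hv0 hvc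
  obtain ⟨z, hz0, hz⟩ := eig_transfer (V := V) (τ g) A (a⁻¹ • τ g)
    (fun y => by rw [LinearMap.smul_apply, h1, smul_smul, inv_mul_cancel₀ ha0, one_smul])
    LinearMap.id (τ g) (c := 1) (fun y => by rw [one_smul]; rfl)
    (fun y hy => by
      have h2 : y = 0 := hy
      rw [h2, map_zero]) (a := a⁻¹ * c) (y := x) hv0 (by
        rw [LinearMap.smul_apply, hvc, smul_smul])
  rw [one_mul] at hz
  obtain ⟨l', hl', hlc'⟩ := h _ z hz0 hz
  refine ⟨l * l'⁻¹, mul_mem hl (inv_mem hl'), ?_⟩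
  have hc0 : c ≠ 0 := by
    rw [← hlc]
    exact Units.ne_zero _
  rw [Units.val_mul, Units.val_inv_eq_inv_val, hlc, hlc', mul_inv, inv_inv]
  field_simp

theorem conj_one {g : Γ} (hlam : lam g = 1) (h : τ g = 1) : conj lam τ g = 1 := by
  have h' : τ g⁻¹ = 1 := by
    have h1 : τ g * τ g⁻¹ = 1 := by rw [← map_mul, mul_inv_cancel, map_one]
    rwa [h, one_mul] at h1
  apply LinearMap.ext
  intro A
  rw [conj_apply, hlam, h, h', Units.val_one, one_smul, one_mul, mul_one]
  rfl

end conj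

variable {k : Type u} [Field k] {𝒱 : VarClass k} {ops : CycleOps 𝒱}
  {W : WeilCohomology.{u, 0} ops} {Γ : Type} [Group Γ] {χ : Γ →* W.Kˣ}

section

variable {P : Polarized 𝒱} {ρ : Γ →* (W.H P.X ≃ₐ[W.K] W.H P.X)} {Z : 𝒱.Obj}
  {τ : Γ →* (W.H Z ≃ₐ[W.K] W.H Z)}

/-- Finite order, in even dimension. -/
theorem fullEnd_fin [IsAlgClosed W.K] (hDX : HomEqNum W P.X)
    (hmid : transcendental W P.X ≤ W.gr P.X P.X.dim)
    (hG : IsGalois W χ P.X ρ) (heven : Even P.X.dim)
    (hirr : StronglyIrreducible ρ (transcendental W P.X)) {g : Γ} (hχ : χ g = 1)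
    {Λ : Subgroup W.Kˣ} (hfin : ∃ k : ℕ, 0 < k ∧ ∀ t ∈ transcendental W P.X, ρ (g ^ k) t = t)
    {α : W.K} (hdim : α * α = 1 ∨ 5 ≤ Module.finrank W.K (transcendental W P.X))
    (hiso : SimpleIsolated Λ (fun a => Module.finrank W.K (transcendental W P.X ⊓
      Module.End.eigenspace (ρ g).toLinearMap a : Submodule W.K (W.H P.X))) α)
    (hF : Hyperbolic (transcendental W P.X) ρ) (hτ : EigA Λ (τ g)) :
    FullEnd χ hG τ := by
  intro S _ _ lam hlam x y
  rw [heven.neg_one_pow, Int.cast_one, one_smul]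
  obtain ⟨k, hk, hgk⟩ := hfin
  obtain ⟨F, u, hu, v, hv, hu0, hv0, al, be, hFu, hFv, hab⟩ := hF
  have hγ : rhoT hG g ^ k = 1 := by
    rw [← map_pow]
    apply LinearMap.ext
    intro x
    exact Subtype.ext (hgk x x.2)
  have h1 : (fun a => Module.finrank W.K (transcendental W P.X ⊓
      Module.End.eigenspace (ρ g).toLinearMap a : Submodule W.K (W.H P.X))) =
      fun a => Module.finrank W.K (Module.End.eigenspace (rhoT hG g) a) := by
    funext a
    rw [finrank_eigT hG g a, eigT_eq]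
  rw [h1] at hiso
  refine fin_full (χ := mult χ P.X.dim) (γ := g) (Λ := Λ) (form_symm hmid heven)
    (trans_nondeg hDX) (fun g a b => ?_) (SI_rhoT hG hirr) ?_ ?_ hk hγ hiso.1 hdim hiso.2 F
    (u := ⟨u, hu⟩) (v := ⟨v, hv⟩) (fun h => hu0 (congrArg Subtype.val h))
    (fun h => hv0 (congrArg Subtype.val h)) (Subtype.ext hFu) (Subtype.ext hFv) hab x y
  · rw [mult_apply]
    exact bil_act hG g a b
  · rw [mult_apply, hχ, Units.val_one, one_pow]
  · exact conj_eigIn (hlam g hχ) hτ

theorem fullEnd_of_odd (hG : IsGalois W χ P.X ρ) (hodd : Odd P.X.dim)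
    (h : ∀ (S : Type) [Fintype S] [DecidableEq S] (lam : Γ →* W.Kˣ),
      (∀ g, χ g = 1 → lam g = 1) → ∀ x y,
      rk (rform W P.X (transcendental W P.X)) y x + rk (rform W P.X (transcendental W P.X)) x y
      ∈ LL S (rform W P.X (transcendental W P.X)) (rhoT hG) (conj lam (lin τ))) :
    FullEnd χ hG τ := by
  intro S _ _ lam hlam x y
  have h1 := h S lam hlam x y
  have h2 : rk (rform W P.X (transcendental W P.X)) y x -
      ((((-1 : ℤ) ^ P.X.dim : ℤ)) : W.K) • rk (rform W P.X (transcendental W P.X)) x y =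
      rk (rform W P.X (transcendental W P.X)) y x + rk (rform W P.X (transcendental W P.X)) x y := by
    apply LinearMap.ext
    intro z
    rw [hodd.neg_one_pow, Int.cast_neg, Int.cast_one]
    simp only [LinearMap.sub_apply, LinearMap.smul_apply, LinearMap.add_apply]
    module
  rw [h2]
  exact h1

/-- Isolated eigenvalues. -/
theorem fullEnd_iso [IsAlgClosed W.K] (hDX : HomEqNum W P.X)
    (hmid : transcendental W P.X ≤ W.gr P.X P.X.dim)
    (hG : IsGalois W χ P.X ρ) (hodd : Odd P.X.dim)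
    (hirr : StronglyIrreducible ρ (transcendental W P.X)) {g : Γ} (hχ : χ g = 1)
    {Λ : Subgroup W.Kˣ} (hg : IsolatedAct Λ (transcendental W P.X) ρ g)
    (hF : HyperbolicAct (transcendental W P.X) ρ) (hτ : EigA Λ (τ g)) :
    FullEnd χ hG τ := by
  refine fullEnd_of_odd hG hodd fun S _ _ lam hlam x y => ?_
  obtain ⟨⟨k, hk, hgk⟩, hiso⟩ := hg
  obtain ⟨F, u, hu, v, hv, hu0, hv0, al, be, hFu, hFv, hab⟩ := hF
  rw [rk_eq_SS]
  have hγ : rhoT hG g ^ k = 1 := by
    rw [← map_pow]
    apply LinearMap.ext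
    intro x
    exact Subtype.ext (hgk x x.2)
  refine iso_full (χ := mult χ P.X.dim) (γ := g) (Λ := Λ) (form_alt hmid hodd)
    (trans_nondeg hDX) (fun g a b => ?_) (SI_rhoT hG hirr) ?_ ?_ hk hγ ?_ F
    (u := ⟨u, hu⟩) (v := ⟨v, hv⟩) (fun h => hu0 (congrArg Subtype.val h))
    (fun h => hv0 (congrArg Subtype.val h)) (Subtype.ext hFu) (Subtype.ext hFv) hab x y
  · rw [mult_apply]
    exact bil_act hG g a b
  · rw [mult_apply, hχ, Units.val_one, one_pow]
  · exact conj_eigIn (hlam g hχ) hτ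
  · have h1 : (fun a => Module.finrank W.K (Module.End.eigenspace (rhoT hG g) a)) =
        fun a => Module.finrank W.K (eigT (transcendental W P.X) ρ g a) :=
      funext fun a => finrank_eigT hG g a
    rw [h1]
    exact hiso

/-- Unipotent elements. -/
theorem fullEnd_quad [IsAlgClosed W.K] (hDX : HomEqNum W P.X)
    (hmid : transcendental W P.X ≤ W.gr P.X P.X.dim)
    (hG : IsGalois W χ P.X ρ) (hodd : Odd P.X.dim)
    (hirr : StronglyIrreducible ρ (transcendental W P.X)) {M : Set Γ} (hχ : ∀ g ∈ M, χ g = 1)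
    (hτ : ∀ g ∈ M, τ g = 1) {g : Γ} (hgM : g ∈ M)
    (hg : CoprimeDefects (transcendental W P.X) ρ M g) :
    FullEnd χ hG τ := by
  refine fullEnd_of_odd hG hodd fun S _ _ lam hlam x y => ?_
  obtain ⟨hq, hd⟩ := hg
  rw [rk_eq_SS]
  refine quad_full (χ := mult χ P.X.dim) (γ := g) (A := M) (form_alt hmid hodd)
    (trans_nondeg hDX) (fun g a b => ?_) (SI_rhoT hG hirr) (fun g hg => ?_) (fun g hg => ?_) hgM
    ((quadAct_iff hG).1 hq) ?_ x y
  · rw [mult_apply]
    exact bil_act hG g a b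
  · rw [mult_apply, hχ g hg, Units.val_one, one_pow]
  · refine conj_one (hlam g (hχ g hg)) ?_
    apply LinearMap.ext
    intro z
    rw [lin_apply, hτ g hg]
    rfl
  · rcases hd with hd | hd
    · left
      intro p hp
      obtain ⟨d, h1, h2⟩ := hd p hp
      exact ⟨d, gdefect_of hG h1, h2⟩
    · exact Or.inr (gdefect_of hG hd)

end

end Run7.h190.GT
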