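import Pool.Agent.Run7.h190.GT.Tower

/-!
# The generalized Tate conjecture for towers and their images
-/

open CategoryTheory AlgebraicGeometry Finset

set_option linter.unusedSectionVars false
set_option linter.deprecated false

namespace Run7.h190.GT

open Pool.Agent Pool.Agent.TH125.Gal Pool.Agent.TH118.SG Pool.Agent.V11219.IsoF
  Pool.Agent.V11219.Loc Pool.Agent.V11219.Quad Run7.h190.EV
open Pool.Agent.H914 Pool.Agent.H914.VarClass Pool.Agent.H914.VarClass.Obj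
  Pool.Agent.H914.WeilCohomology Pool.Agent.H281R3.HT Pool.Agent.W552 Pool.Agent.H447

variable {k : Type} [Field k] {𝒱 : VarClass k} {ops : CycleOps 𝒱}
  {W : WeilCohomology.{0, 0} ops} {Γ : Type} [Group Γ] {χ : Γ →* W.Kˣ}
  {ι : Type} {X : ι → GVar W Γ} {Z : GVar W Γ} {𝓟 : Set Γ} {m : ι → ℕ}

/-- **Images.** -/
theorem gtu_of_image
    (hcyc : ∀ (Y : 𝒱.Obj) (j : ℕ) (z : Y.Cycles), Y.IsCyc j z → W.cl Y z ∈ cv W j Y)
    {A B : GVar W Γ} (h : IsImageOf χ A B) (hA : GTU 𝓟 χ A.act) : GTU 𝓟 χ B.act := by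
  obtain ⟨hB, g, ⟨p, _, ⟨w, hw, rfl⟩, hw1⟩, he⟩ := h
  have hinj : ∀ c, W.push g (W.cl A.X w * W.map g c) = c := by
    intro c
    have h2 := Pool.Agent.V11219.Cls.push_mul_map' (W := W) g (W.cl A.X w) c
    rw [hw1, one_mul] at h2
    exact h2
  intro Δ hΔ ν U hst hU c hc
  by_cases h10 : (1 : W.H B.X) = 0
  · rw [← one_mul c, h10, zero_mul]
    exact Submodule.zero_mem _
  have hdim : p + B.X.dim = A.X.dim := by
    by_contra hne
    apply h10
    have h1 := W.push_mem g (W.cl_mem hw)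
    rw [hw1] at h1
    by_cases h2 : (0 : ℤ) ≤ (2 * p : ℕ) + 2 * ((B.X.dim : ℤ) - A.X.dim)
    · obtain ⟨l, hl⟩ := Int.eq_ofNat_of_zero_le h2
      rw [hl, grZ_natCast] at h1
      have h3 := proj_ne (W.isInternal B.X) h1 (j := 0) (by omega)
      rwa [proj_same (W.isInternal B.X) (W.one_mem B.X)] at h3
    · rw [grZ_of_neg (not_le.1 h2), Submodule.mem_bot] at h1
      exact h1
  have h3 := hA Δ hΔ ν (U.map (W.map g).toLinearMap) (by
    rintro s hs _ ⟨u, hu, rfl⟩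
    exact ⟨B.act s u, hst s hs u hu, (he s u).symm⟩) (by
    rintro F hF k hk hFk b' _ ⟨u, hu, rfl⟩ hu0 hub
    refine hU F hF k hk hFk b' u hu (fun h => hu0 (by rw [h, map_zero])) ?_
    have h4 : W.map g (lin B.act (F ^ k) u) = W.map g (b' • u) := by
      rw [map_smul]
      exact (he (F ^ k) u).symm.trans hub
    have h5 := congrArg (fun y => W.push g (W.cl A.X w * y)) h4
    beta_reduce at h5
    rwa [hinj, hinj] at h5) ⟨c, hc, rfl⟩
  have h4 := alg_mul_cv hcyc (i := p) (Submodule.subset_span ⟨w, hw, rfl⟩) h3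
  have h5 := push_cv (W := W) (j' := ν) g (by omega) h4
  have h6 : W.push g (W.cl A.X w * W.map g c) ∈ cv W ν B.X := h5
  rwa [hinj] at h6

/-- An integer greater than one is not invertible in the ring of the algebraic integers. -/
theorem not_integral {K : Type} [Field K] [CharZero K] {q n : ℕ} (hq : 1 < q) (hn : 0 < n) :
    ¬ IsIntegral ℤ ((1 : K) / (q : K) ^ n) := by
  intro h
  have h1 : (1 : K) / (q : K) ^ n = algebraMap ℚ K (1 / (q : ℚ) ^ n) := by
    rw [map_div₀, map_one, map_pow, map_natCast]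
  rw [h1, isIntegral_algebraMap_iff (algebraMap ℚ K).injective] at h
  obtain ⟨z, hz⟩ := IsIntegrallyClosed.isIntegral_iff.1 h
  have hq0 : (0 : ℚ) < (q : ℚ) ^ n := pow_pos (by exact_mod_cast (by omega : 0 < q)) n
  have h2 : (z : ℚ) * (q : ℚ) ^ n = 1 := by
    have h3 : (z : ℚ) = 1 / (q : ℚ) ^ n := hz
    rw [h3, one_div, inv_mul_cancel₀ hq0.ne']
  have h3 : z * (q : ℤ) ^ n = 1 := by exact_mod_cast h2
  have h4 : (q : ℤ) ^ n ∣ 1 := ⟨z, by rw [mul_comm]; exact h3.symm⟩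
  have h5 : (q : ℤ) ^ n = 1 := by
    rcases Int.isUnit_iff.1 (isUnit_of_dvd_one h4) with h5 | h5
    · exact h5
    · have h6 : (0 : ℤ) < (q : ℤ) ^ n := pow_pos (by exact_mod_cast (by omega : 0 < q)) n
      omega
  have h6 : 1 < q ^ n := Nat.one_lt_pow hn.ne' hq
  have h7 : q ^ n = 1 := by exact_mod_cast h5
  omega

/-- The generalized Tate conjecture for a point. -/
theorem gtu_point (hZ : ∀ x : W.H Z.X, x ∈ Submodule.span W.K {(1 : W.H Z.X)})
    {F : Γ} (hF : F ∈ 𝓟) {q : ℕ} (hq : 1 < q) (hχ : (χ F : W.K) = q) : GTU 𝓟 χ Z.act := by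
  intro Δ hΔ ν U hst hU c hc
  rcases Nat.eq_zero_or_pos ν with rfl | hν
  · exact mem_cv_zero c
  have h0 : c = 0 := by
    by_contra hc0
    obtain ⟨x, rfl⟩ := Submodule.mem_span_singleton.1 (hZ c)
    obtain ⟨k, hk, -, hFk⟩ := Subgroup.exists_pow_mem_of_index_ne_zero hΔ.index_ne_zero F
    have h1 : lin Z.act (F ^ k) (x • (1 : W.H Z.X)) = (1 : W.K) • (x • (1 : W.H Z.X)) := by
      rw [map_smul, lin_apply, map_one, one_smul]
    have h2 := hU F hF k hk hFk 1 _ hc hc0 h1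
    rw [map_pow, Units.val_pow_eq_pow_val, hχ, zpow_neg, zpow_natCast, ← pow_mul,
      ← div_eq_mul_inv] at h2
    exact not_integral hq (Nat.mul_pos hk hν) h2
  rw [h0]
  exact Submodule.zero_mem _

/-- **The generalized Tate conjecture for products with powers.** -/
theorem UnitFamily.gtc [IsAlgClosed W.K] (hcyc : CyclesHaveConiveau W)
    (h : UnitFamily χ 𝓟 X Z m) {S : Set ι} {T : GVar W Γ} (hT : PowTower X Z m S T)
    (hG : IsGaloisVar χ T) (hss : IsSemisimpleAct T.act) :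
    (GTC χ 𝓟 T ↔ GTC χ 𝓟 Z) ∧ (GTC χ 𝓟 Z → ∀ V, IsImageOf χ T V → GTC χ 𝓟 V) := by
  rw [cyc_iff] at hcyc
  have hSS : SSF (fun g => lin T.act g) := fun Δ hΔ U hU => by
    obtain ⟨C, hC, hUC⟩ := hss Δ hΔ U hU
    exact ⟨Δ, hΔ, le_rfl, C, hC, hUC⟩
  have key : GTC χ 𝓟 T ↔ GTC χ 𝓟 Z := by
    rw [gtc_pub hG, gtc_pub h.galois_base]
    exact gtu_tower hcyc h hT hSS
  refine ⟨key, fun hZ V hV => ?_⟩
  have h1 := key.2 hZ
  rw [gtc_pub hG] at h1
  rw [gtc_pub hV.1]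
  exact gtu_of_image hcyc hV h1

theorem gtc_point (hZG : IsGaloisVar χ Z) (hZ : IsOneDimensional W.K (W.H Z.X))
    (h : HasIntegralNorm χ 𝓟) : GTC χ 𝓟 Z := by
  obtain ⟨F, hF, q, hq, hχ⟩ := h
  rw [gtc_pub hZG]
  have hZ' : Submodule.span W.K {(1 : W.H Z.X)} = ⊤ := hZ
  exact gtu_point (fun x => by rw [hZ']; exact Submodule.mem_top) hF hq hχ

end Run7.h190.GT
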