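import Pool.Agent.Run7.h190.GT.Coniv

/-!
# Contractions and the coniveau filtration
-/

open CategoryTheory AlgebraicGeometry Finset Function

set_option linter.unusedSectionVars false
set_option linter.deprecated false

universe u

namespace Run7.h190.GT

open Pool.Agent.TH125.Gal Pool.Agent.TH118.SG
open Pool.Agent.H914 Pool.Agent.H914.VarClass Pool.Agent.H914.VarClass.Obj
  Pool.Agent.H914.WeilCohomology Pool.Agent.H281R3.HT Pool.Agent.W552

variable {k : Type u} [Field k] {𝒱 : VarClass k} {ops : CycleOps 𝒱}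
  {W : WeilCohomology.{u, 0} ops} {X Z : 𝒱.Obj} {s : SB W X}

section sums

variable {S J : Type} [Fintype S] [DecidableEq S] [Fintype J] [DecidableEq J]

/-- inserting two values -/
def insr (a b : S) (x : J × J × ({x : S // x ≠ a ∧ x ≠ b} → J)) (c : S) : J :=
  if h : c ≠ a ∧ c ≠ b then x.2.2 ⟨c, h⟩ else if c = a then x.1 else x.2.1

theorem insr_a {a b : S} (x : J × J × ({x : S // x ≠ a ∧ x ≠ b} → J)) : insr a b x a = x.1 := by
  rw [insr, dif_neg (fun h => h.1 rfl), if_pos rfl]

theorem insr_b {a b : S} (hab : a ≠ b) (x : J × J × ({x : S // x ≠ a ∧ x ≠ b} → J)) :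
    insr a b x b = x.2.1 := by
  rw [insr, dif_neg (fun h => h.2 rfl), if_neg (Ne.symm hab)]

theorem insr_c {a b : S} (x : J × J × ({x : S // x ≠ a ∧ x ≠ b} → J))
    (c : {x : S // x ≠ a ∧ x ≠ b}) : insr a b x c.1 = x.2.2 c := by
  rw [insr, dif_pos c.2]

theorem sum_insr {a b : S} (hab : a ≠ b) {M : Type*} [AddCommMonoid M] (F : (S → J) → M) :
    ∑ r, F r = ∑ x : J × J × ({x : S // x ≠ a ∧ x ≠ b} → J), F (insr a b x) := by
  symm
  refine Fintype.sum_bijective (insr a b) ⟨fun x y h => ?_, fun r => ?_⟩ _ _ fun x => rfl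
  · have h1 := congrFun h a
    have h2 := congrFun h b
    rw [insr_a, insr_a] at h1
    rw [insr_b hab, insr_b hab] at h2
    refine Prod.ext h1 (Prod.ext h2 (funext fun c => ?_))
    have h3 := congrFun h c.1
    rwa [insr_c, insr_c] at h3
  · refine ⟨(r a, r b, fun c => r c.1), funext fun c => ?_⟩
    by_cases hca : c = a
    · subst hca
      rw [insr_a]
    · by_cases hcb : c = b
      · subst hcb
        rw [insr_b hab]
      · exact insr_c _ ⟨c, hca, hcb⟩

end sums

/-- the class given by values at bases -/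
noncomputable def RR {S : Type} [Fintype S] [DecidableEq S] (s : SB W X) {A : 𝒱.Obj}
    (π : S → (A ⟶ X)) (L : List S)
    (h : Mul W.K (transcendental W X) (W.H Z) S) : W.H (A.prod Z) :=
  ∑ r : S → Fin s.NT, W.map (fst A Z) ((L.map fun a => W.map (π a) (s.bT (r a) : W.H X)).prod) *
    W.map (snd A Z) (h fun a => s.uT (r a))

theorem alg_of_gr {Y : 𝒱.Obj} {j : ℕ} {a : W.H Y} (ha : a ∈ algSpan W Y) (ha' : a ∈ W.gr Y (2 * j)) :
    a ∈ Submodule.span W.K (algClasses W Y j) := algSpan_gr ha ha'

/-- **Contractions with values in the coniveau filtration.** -/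
theorem good_geo (hcyc : ∀ (Y : 𝒱.Obj) (j : ℕ) (z : Y.Cycles), Y.IsCyc j z → W.cl Y z ∈ cv W j Y)
    (hDX : HomEqNum W X) (hmid : transcendental W X ≤ W.gr X X.dim) {S : Type} {ν : ℕ}
    {h : Mul W.K (transcendental W X) (W.H Z) S}
    (hg : Good (fun ν => cv W ν Z) (rform W X (transcendental W X)) X.dim S ν h) :
    ∀ [Fintype S] [DecidableEq S] {A : 𝒱.Obj} (π : S → (A ⟶ X)) (L : List S), L.Nodup →
      (∀ a, a ∈ L) → RR s π L h ∈ cv W ν (A.prod Z) := by
  induction hg with
  | @val S ν h H =>
    intro _ _ A π L _ _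
    exact Submodule.sum_mem _ fun r _ => ext_cv_right _ (H _)
  | @add S ν h h' _ _ ih ih' =>
    intro _ _ A π L hL hL'
    have h1 : RR s π L (h + h') = RR s π L h + RR s π L h' := by
      rw [RR, RR, RR, ← Finset.sum_add_distrib]
      refine Finset.sum_congr rfl fun r _ => ?_
      rw [MultilinearMap.add_apply, map_add, mul_add]
    rw [h1]
    exact Submodule.add_mem _ (ih π L hL hL') (ih' π L hL hL')
  | @pair S ν h a b hab g _ hg ih =>
    intro _ _ A π L hL hL'
    set L' : List {x : S // x ≠ a ∧ x ≠ b} := Finset.univ.toList with hL'def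
    have hL'n : L'.Nodup := Finset.nodup_toList _
    have hL'm : ∀ x, x ∈ L' := fun x => Finset.mem_toList.2 (mem_univ _)
    have hn2 : (a :: b :: L'.map Subtype.val).Nodup := by
      rw [List.nodup_cons, List.nodup_cons]
      refine ⟨?_, ?_, hL'n.map Subtype.val_injective⟩
      · intro hm
        rcases List.mem_cons.1 hm with hm | hm
        · exact hab hm
        · obtain ⟨x, -, hx⟩ := List.mem_map.1 hm
          exact x.2.1 hx
      · intro hm
        obtain ⟨x, -, hx⟩ := List.mem_map.1 hm
        exact x.2.2 hx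
    have hperm : L.Perm (a :: b :: L'.map Subtype.val) := by
      refine (List.perm_ext_iff_of_nodup hL hn2).2 fun x => ?_
      refine iff_of_true (hL' x) ?_
      by_cases hxa : x = a
      · subst hxa
        exact List.mem_cons_self
      · by_cases hxb : x = b
        · subst hxb
          exact List.mem_cons_of_mem _ List.mem_cons_self
        · exact List.mem_cons_of_mem _ (List.mem_cons_of_mem _
            (List.mem_map.2 ⟨⟨x, hxa, hxb⟩, hL'm _, rfl⟩))
    obtain ⟨ε, hε, hperm'⟩ := perm_sign (K := W.K) (A := W.H A) (fun _ : S => X.dim) hperm hL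
    have hεK : (ε : W.K) * (ε : W.K) = 1 := by
      rw [← Int.cast_mul, hε, Int.cast_one]
    have hsplit : ∀ r : S → Fin s.NT, (L.map fun a => W.map (π a) (s.bT (r a) : W.H X)).prod =
        (ε : W.K) • (W.map (π a) (s.bT (r a) : W.H X) * (W.map (π b) (s.bT (r b) : W.H X) *
          (L'.map fun c => W.map (π c.1) (s.bT (r c.1) : W.H X)).prod)) := by
      intro r
      have h1 := hperm' (fun a => W.map (π a) (s.bT (r a) : W.H X)) fun p q _ =>
        W.comm (W.map_mem _ (hmid (s.bT _).2)) (W.map_mem _ (hmid (s.bT _).2))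
      rw [List.map_cons, List.prod_cons, List.map_cons, List.prod_cons, List.map_map] at h1
      have h2 := congrArg (fun x => (ε : W.K) • x) h1
      beta_reduce at h2
      rw [smul_smul, hεK, one_smul] at h2
      exact h2.symm
    have hfac : RR s π L h = (ε : W.K) • (W.map (fst A Z) (W.map (Obj.lift (π a) (π b)) (dQ s)) *
        RR s (fun c => π c.1) L' g) := by
      rw [RR, sum_insr hab, RR]
      have h1 : W.map (Obj.lift (π a) (π b)) (dQ s) =
          ∑ i : Fin s.NT, ∑ j : Fin s.NT, bil W X (s.uT i) (s.uT j) •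
            (W.map (π a) (s.bT i : W.H X) * W.map (π b) (s.bT j : W.H X)) := by
        have h2 := Fintype.sum_equiv (finTwoArrowEquiv (Fin s.NT))
          (fun a : Fin 2 → Fin s.NT => bil W X (s.uT (a 0)) (s.uT (a 1)) •
            (W.map (fst X X) (s.bT (a 0) : W.H X) * W.map (snd X X) (s.bT (a 1) : W.H X)))
          (fun a => bil W X (s.uT a.1) (s.uT a.2) •
            (W.map (fst X X) (s.bT a.1 : W.H X) * W.map (snd X X) (s.bT a.2 : W.H X)))
          (fun a => rfl)
        rw [dQ, h2, Fintype.sum_prod_type, map_sum]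
        refine Finset.sum_congr rfl fun i _ => ?_
        rw [map_sum]
        refine Finset.sum_congr rfl fun j _ => ?_
        rw [map_smul, map_mul, ← W.map_comp, ← W.map_comp, Obj.lift_fst, Obj.lift_snd]
      rw [h1, Fintype.sum_prod_type, map_sum, Finset.sum_mul, Finset.smul_sum]
      refine Finset.sum_congr rfl fun i _ => ?_
      rw [Fintype.sum_prod_type, map_sum, Finset.sum_mul, Finset.smul_sum]
      refine Finset.sum_congr rfl fun j _ => ?_
      rw [map_smul, smul_mul_assoc, Finset.mul_sum, Finset.smul_sum, Finset.smul_sum]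
      refine Finset.sum_congr rfl fun r _ => ?_
      rw [hsplit, hg]
      have h3 : (L'.map fun c => W.map (π c.1) (s.bT (insr a b (i, j, r) c.1) : W.H X)) =
          L'.map fun c => W.map (π c.1) (s.bT (r c) : W.H X) := by
        refine List.map_congr_left fun c _ => ?_
        rw [insr_c]
      have h4 : (g fun x => s.uT (insr a b (i, j, r) x.1)) = g fun x => s.uT (r x) := by
        congr 1
        funext x
        rw [insr_c]
      rw [h3, h4, insr_a, insr_b hab, rform_apply, map_smul, map_smul, map_mul, map_mul, map_mul,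
        smul_mul_assoc, mul_smul_comm]
      simp only [mul_assoc]
    rw [hfac]
    refine Submodule.smul_mem _ _ ?_
    have h5 : W.map (fst A Z) (W.map (Obj.lift (π a) (π b)) (dQ s)) ∈
        Submodule.span W.K (algClasses W (A.prod Z) X.dim) :=
      algSpan_gr (algSpan_map _ (algSpan_map _ (dQ_alg hDX hmid s)))
        (W.map_mem _ (W.map_mem _ (dQ_gr hmid s)))
    exact cv_anti (by omega) (alg_mul_cv hcyc h5 (ih (fun c => π c.1) L' hL'n hL'm))

end Run7.h190.GT
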