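import Pool.Agent.Run7.h190.EV.Step

/-!
# Equivariant operators on multilinear maps and their kernels
-/

open Finset Function

set_option linter.unusedSectionVars false
set_option linter.deprecated false

namespace Run7.h190.GT

variable {K : Type} [Field K] {T : Type} [AddCommGroup T] [Module K T]
  {V : Type} [AddCommGroup V] [Module K V] {S : Type}

/-- The multilinear maps in the variables indexed by `S`. -/
abbrev Mul (K T V S : Type) [Field K] [AddCommGroup T] [Module K T] [AddCommGroup V]
    [Module K V] : Type :=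
  MultilinearMap K (fun _ : S => T) V

section dec

variable [Fintype S] (B : T →ₗ[K] T →ₗ[K] K)

/-- decomposable maps -/
noncomputable def dec (t : S → T) (x : V) : Mul K T V S :=
  ((MultilinearMap.mkPiAlgebra K S K).compLinearMap fun a => B (t a)).smulRight x

@[simp] theorem dec_apply (t : S → T) (x : V) (v : S → T) :
    dec B t x v = (∏ a, B (t a) (v a)) • x := rfl

theorem dec_add_right (t : S → T) (x y : V) : dec B t (x + y) = dec B t x + dec B t y := by
  ext v
  simp

theorem dec_smul_right (t : S → T) (c : K) (x : V) : dec B t (c • x) = c • dec B t x := by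
  ext v
  rw [dec_apply, MultilinearMap.smul_apply, dec_apply, smul_comm]

theorem dec_update_add [DecidableEq S] (t : S → T) (a : S) (y z : T) (x : V) :
    dec B (update t a (y + z)) x = dec B (update t a y) x + dec B (update t a z) x := by
  ext v
  simp only [dec_apply, MultilinearMap.add_apply]
  rw [← add_smul]
  congr 1
  have h1 : ∀ w, ∏ b, B (update t a w b) (v b) = B w (v a) * ∏ b ∈ univ.erase a, B (t b) (v b) := by
    intro w
    rw [← Finset.mul_prod_erase univ _ (mem_univ a), update_self]
    congr 1
    refine Finset.prod_congr rfl fun b hb => ?_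
    rw [update_of_ne (Finset.ne_of_mem_erase hb)]
  rw [h1, h1, h1, map_add, LinearMap.add_apply, add_mul]

theorem dec_update_smul [DecidableEq S] (t : S → T) (a : S) (c : K) (y : T) (x : V) :
    dec B (update t a (c • y)) x = c • dec B (update t a y) x := by
  ext v
  simp only [dec_apply, MultilinearMap.smul_apply]
  rw [smul_smul]
  congr 1
  have h1 : ∀ w, ∏ b, B (update t a w b) (v b) = B w (v a) * ∏ b ∈ univ.erase a, B (t b) (v b) := by
    intro w
    rw [← Finset.mul_prod_erase univ _ (mem_univ a), update_self]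
    congr 1
    refine Finset.prod_congr rfl fun b hb => ?_
    rw [update_of_ne (Finset.ne_of_mem_erase hb)]
  rw [h1, h1, map_smul, LinearMap.smul_apply, smul_eq_mul, mul_assoc]

variable [DecidableEq S]

/-- the kernel of an operator -/
noncomputable def ker (P : Mul K T V S →ₗ[K] Mul K T V S) :
    MultilinearMap K (fun _ : S ⊕ S => T) (V →ₗ[K] V) where
  toFun v :=
    { toFun := fun x => P (dec B (v ∘ Sum.inl) x) (v ∘ Sum.inr)
      map_add' := fun x y => by rw [dec_add_right, map_add, MultilinearMap.add_apply]
      map_smul' := fun c x => by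
        rw [dec_smul_right, map_smul, MultilinearMap.smul_apply, RingHom.id_apply] }
  map_update_add' := by
    intro _ v i y z
    obtain rfl : ‹DecidableEq (S ⊕ S)› = instDecidableEqSum := Subsingleton.elim _ _
    apply LinearMap.ext
    intro x
    rcases i with a | a
    · change P (dec B (update v (Sum.inl a) (y + z) ∘ Sum.inl) x) (update v (Sum.inl a) (y + z) ∘ Sum.inr) =
        P (dec B (update v (Sum.inl a) y ∘ Sum.inl) x) (update v (Sum.inl a) y ∘ Sum.inr) +
        P (dec B (update v (Sum.inl a) z ∘ Sum.inl) x) (update v (Sum.inl a) z ∘ Sum.inr)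
      rw [Sum.update_inl_comp_inl, Sum.update_inl_comp_inl, Sum.update_inl_comp_inl,
        Sum.update_inl_comp_inr, Sum.update_inl_comp_inr, Sum.update_inl_comp_inr,
        dec_update_add, map_add, MultilinearMap.add_apply]
    · change P (dec B (update v (Sum.inr a) (y + z) ∘ Sum.inl) x) (update v (Sum.inr a) (y + z) ∘ Sum.inr) =
        P (dec B (update v (Sum.inr a) y ∘ Sum.inl) x) (update v (Sum.inr a) y ∘ Sum.inr) +
        P (dec B (update v (Sum.inr a) z ∘ Sum.inl) x) (update v (Sum.inr a) z ∘ Sum.inr)
      rw [Sum.update_inr_comp_inl, Sum.update_inr_comp_inl, Sum.update_inr_comp_inl,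
        Sum.update_inr_comp_inr, Sum.update_inr_comp_inr, Sum.update_inr_comp_inr,
        MultilinearMap.map_update_add]
  map_update_smul' := by
    intro _ v i c y
    obtain rfl : ‹DecidableEq (S ⊕ S)› = instDecidableEqSum := Subsingleton.elim _ _
    apply LinearMap.ext
    intro x
    rcases i with a | a
    · change P (dec B (update v (Sum.inl a) (c • y) ∘ Sum.inl) x) (update v (Sum.inl a) (c • y) ∘ Sum.inr) =
        c • P (dec B (update v (Sum.inl a) y ∘ Sum.inl) x) (update v (Sum.inl a) y ∘ Sum.inr)
      rw [Sum.update_inl_comp_inl, Sum.update_inl_comp_inl,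
        Sum.update_inl_comp_inr, Sum.update_inl_comp_inr,
        dec_update_smul, map_smul, MultilinearMap.smul_apply]
    · change P (dec B (update v (Sum.inr a) (c • y) ∘ Sum.inl) x) (update v (Sum.inr a) (c • y) ∘ Sum.inr) =
        c • P (dec B (update v (Sum.inr a) y ∘ Sum.inl) x) (update v (Sum.inr a) y ∘ Sum.inr)
      rw [Sum.update_inr_comp_inl, Sum.update_inr_comp_inl,
        Sum.update_inr_comp_inr, Sum.update_inr_comp_inr,
        MultilinearMap.map_update_smul]

theorem ker_apply (P : Mul K T V S →ₗ[K] Mul K T V S) (v : S ⊕ S → T) (x : V) :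
    ker B P v x = P (dec B (v ∘ Sum.inl) x) (v ∘ Sum.inr) := rfl

end dec

/-- a basis and its dual basis for the form -/
structure DB (J : Type) [Fintype J] [DecidableEq J] (B : T →ₗ[K] T →ₗ[K] K) where
  t : Module.Basis J K T
  ts : J → T
  dual : ∀ i j, B (ts i) (t j) = if i = j then 1 else 0
  span : ∀ u, ∑ j, B u (t j) • ts j = u

variable {J : Type} [Fintype J] [DecidableEq J] {B : T →ₗ[K] T →ₗ[K] K}

theorem exists_DB [Module.Finite K T] (hnd : ∀ x, (∀ y, B x y = 0) → x = 0)
    (t : Module.Basis J K T) : ∃ d : DB J B, d.t = t := by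
  have hinj : Function.Injective B := by
    rw [injective_iff_map_eq_zero]
    intro x hx
    exact hnd x fun y => by rw [hx, LinearMap.zero_apply]
  have hdim : Module.finrank K T = Module.finrank K (Module.Dual K T) :=
    (Subspace.dual_finrank_eq).symm
  have hsurj : Function.Surjective B :=
    (LinearMap.injective_iff_surjective_of_finrank_eq_finrank hdim).1 hinj
  choose ts hts using fun i => hsurj (t.coord i)
  have h1 : ∀ i j, B (ts i) (t j) = if i = j then 1 else 0 := by
    intro i j
    rw [hts, Module.Basis.coord_apply, Module.Basis.repr_self, Finsupp.single_apply]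
    exact if_congr eq_comm rfl rfl
  refine ⟨⟨t, ts, h1, fun u => ?_⟩, rfl⟩
  apply hinj
  refine t.ext fun i => ?_
  rw [map_sum, LinearMap.sum_apply]
  rw [Finset.sum_eq_single i]
  · rw [map_smul, LinearMap.smul_apply, h1, if_pos rfl, smul_eq_mul, mul_one]
  · intro j _ hj
    rw [map_smul, LinearMap.smul_apply, h1, if_neg hj, smul_zero]
  · intro h
    exact absurd (mem_univ i) h

theorem DB.span' (d : DB J B) (v : T) : ∑ j, B (d.ts j) v • d.t j = v := by
  apply d.t.repr.injective
  ext i
  have h1 : ∀ j, B (d.ts j) v = d.t.repr v j := by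
    intro j
    conv_lhs => rw [← d.t.sum_repr v]
    rw [map_sum, Finset.sum_eq_single j]
    · rw [map_smul, d.dual, if_pos rfl, smul_eq_mul, mul_one]
    · intro k _ hk
      rw [map_smul, d.dual, if_neg (Ne.symm hk), smul_zero]
    · intro h
      exact absurd (mem_univ j) h
  simp only [h1]
  rw [d.t.sum_repr]

section Op

variable [Fintype S] [DecidableEq S] (d : DB J B)

/-- Every multilinear map is a sum of decomposable ones. -/
theorem eq_sum_dec (h : Mul K T V S) :
    h = ∑ r : S → J, dec B (fun a => d.ts (r a)) (h fun a => d.t (r a)) := by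
  ext v
  rw [MultilinearMap.sum_apply]
  conv_lhs =>
    rw [show v = fun a => ∑ j, B (d.ts j) (v a) • d.t j from funext fun a => (d.span' (v a)).symm]
  rw [MultilinearMap.map_sum]
  refine Finset.sum_congr rfl fun r _ => ?_
  rw [MultilinearMap.map_smul_univ, dec_apply]

/-- the operator with a given kernel -/
noncomputable def Op (𝓗 : MultilinearMap K (fun _ : S ⊕ S => T) (V →ₗ[K] V)) :
    Mul K T V S →ₗ[K] Mul K T V S where
  toFun h := ∑ r : S → J, (LinearMap.applyₗ (h fun a => d.t (r a))).compMultilinearMap
    (𝓗.currySum fun a => d.ts (r a))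
  map_add' h h' := by
    ext v
    simp only [MultilinearMap.sum_apply, MultilinearMap.add_apply, LinearMap.compMultilinearMap_apply,
      LinearMap.applyₗ_apply_apply, map_add, LinearMap.add_apply]
    rw [← Finset.sum_add_distrib]
  map_smul' c h := by
    ext v
    simp only [MultilinearMap.sum_apply, MultilinearMap.smul_apply,
      LinearMap.compMultilinearMap_apply, LinearMap.applyₗ_apply_apply, map_smul, RingHom.id_apply,
      LinearMap.smul_apply]
    rw [← Finset.smul_sum]

theorem Op_apply (𝓗 : MultilinearMap K (fun _ : S ⊕ S => T) (V →ₗ[K] V)) (h : Mul K T V S)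
    (s : S → T) : Op d 𝓗 h s =
      ∑ r : S → J, 𝓗 (Sum.elim (fun a => d.ts (r a)) s) (h fun a => d.t (r a)) := by
  change (∑ r : S → J, _ : Mul K T V S) s = _
  rw [MultilinearMap.sum_apply]
  refine Finset.sum_congr rfl fun r _ => ?_
  rfl

theorem Op_dec (𝓗 : MultilinearMap K (fun _ : S ⊕ S => T) (V →ₗ[K] V)) (u : S → T) (x : V)
    (s : S → T) : Op d 𝓗 (dec B u x) s = 𝓗 (Sum.elim u s) x := by
  rw [Op_apply]
  have h1 : 𝓗 (Sum.elim u s) = (𝓗.currySum u) s := rfl
  have h2 : 𝓗.currySum u = ∑ r : S → J, (∏ a, B (u a) (d.t (r a))) •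
      𝓗.currySum fun a => d.ts (r a) := by
    conv_lhs =>
      rw [show u = fun a => ∑ j, B (u a) (d.t j) • d.ts j from funext fun a => (d.span (u a)).symm]
    rw [MultilinearMap.map_sum]
    refine Finset.sum_congr rfl fun r _ => ?_
    rw [MultilinearMap.map_smul_univ]
  rw [h1, h2, MultilinearMap.sum_apply, LinearMap.sum_apply]
  refine Finset.sum_congr rfl fun r _ => ?_
  rw [MultilinearMap.smul_apply, LinearMap.smul_apply, dec_apply, map_smul]
  rfl

include d in
theorem ext_dec {P P' : Mul K T V S →ₗ[K] Mul K T V S}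
    (h : ∀ u x, P (dec B u x) = P' (dec B u x)) : P = P' := by
  apply LinearMap.ext
  intro f
  rw [eq_sum_dec d f, map_sum, map_sum]
  exact Finset.sum_congr rfl fun r _ => h _ _

theorem Op_ker (P : Mul K T V S →ₗ[K] Mul K T V S) : Op d (ker B P) = P := by
  refine ext_dec d fun u x => MultilinearMap.ext fun s => ?_
  rw [Op_dec, ker_apply, Sum.elim_comp_inl, Sum.elim_comp_inr]

theorem Op_sum {ι : Type} (I : Finset ι)
    (𝓗 : ι → MultilinearMap K (fun _ : S ⊕ S => T) (V →ₗ[K] V)) (h : Mul K T V S) :
    Op d (∑ i ∈ I, 𝓗 i) h = ∑ i ∈ I, Op d (𝓗 i) h := by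
  ext s
  rw [Op_apply, MultilinearMap.sum_apply]
  simp only [Op_apply, MultilinearMap.sum_apply, LinearMap.sum_apply]
  rw [Finset.sum_comm]

end Op

end Run7.h190.GT
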