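import Pool.Agent.Run7.h190.GT.Match

/-!
# Semisimplicity, eigenvalues and integrality
-/

open Finset Function

set_option linter.unusedSectionVars false
set_option linter.deprecated false

namespace Run7.h190.GT

variable {K : Type} [Field K] {Γ : Type} [Group Γ]
  {M : Type*} [AddCommGroup M] [Module K M] {M' : Type*} [AddCommGroup M'] [Module K M']

/-- stable subspaces -/
def Stab (σ : Γ → (M →ₗ[K] M)) (Δ : Subgroup Γ) (U : Submodule K M) : Prop :=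
  ∀ g ∈ Δ, ∀ u ∈ U, σ g u ∈ U

/-- semisimplicity, up to subgroups of finite index -/
def SSF (σ : Γ → (M →ₗ[K] M)) : Prop :=
  ∀ Δ : Subgroup Γ, Δ.FiniteIndex → ∀ U : Submodule K M, Stab σ Δ U →
    ∃ Δ' : Subgroup Γ, Δ'.FiniteIndex ∧ Δ' ≤ Δ ∧ ∃ C : Submodule K M, Stab σ Δ' C ∧ IsCompl U C

theorem Stab.mono {σ : Γ → (M →ₗ[K] M)} {Δ Δ' : Subgroup Γ} {U : Submodule K M}
    (h : Stab σ Δ U) (hle : Δ' ≤ Δ) : Stab σ Δ' U := fun g hg => h g (hle hg)

/-- The eigenvalues of the powers in `Δ` of the elements of `𝓟` are integral, after a twist. -/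
def EffF (σ : Γ → (M →ₗ[K] M)) (𝓟 : Set Γ) (χ : Γ →* Kˣ) (e : ℤ) (Δ : Subgroup Γ)
    (U : Submodule K M) : Prop :=
  ∀ F ∈ 𝓟, ∀ k : ℕ, 0 < k → F ^ k ∈ Δ → ∀ a : K, ∀ u ∈ U, u ≠ 0 → σ (F ^ k) u = a • u →
    IsIntegral ℤ (a * ((χ (F ^ k) : K)) ^ e)

theorem EffF.mono {σ : Γ → (M →ₗ[K] M)} {𝓟 : Set Γ} {χ : Γ →* Kˣ} {e : ℤ} {Δ Δ' : Subgroup Γ}
    {U : Submodule K M} (h : EffF σ 𝓟 χ e Δ U) (hle : Δ' ≤ Δ) : EffF σ 𝓟 χ e Δ' U :=
  fun F hF k hk hFk => h F hF k hk (hle hFk)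

theorem ssf_of_inj {σ : Γ → (M →ₗ[K] M)} {σ' : Γ → (M' →ₗ[K] M')} (h : SSF σ)
    (q : M' →ₗ[K] M) (hq : Injective q) (c : Γ → K) (hc : ∀ g, c g ≠ 0)
    (hqa : ∀ g x, q (σ' g x) = c g • σ g (q x)) : SSF σ' := by
  intro Δ hΔ U hU
  obtain ⟨Δ', hΔ', hle, C, hC, hUC⟩ := h Δ hΔ (U.map q) (by
    rintro g hg _ ⟨u, hu, rfl⟩
    have h1 : σ g (q u) = (c g)⁻¹ • q (σ' g u) := by
      rw [hqa, smul_smul, inv_mul_cancel₀ (hc g), one_smul]
    rw [h1]
    exact Submodule.smul_mem _ _ ⟨_, hU g hg u hu, rfl⟩)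
  refine ⟨Δ', hΔ', hle, C.comap q, fun g hg x hx => ?_, ?_⟩
  · change q (σ' g x) ∈ C
    rw [hqa]
    exact Submodule.smul_mem _ _ (hC g hg _ hx)
  · constructor
    · rw [Submodule.disjoint_def]
      intro x hx hx'
      have h1 := (Submodule.disjoint_def.1 hUC.disjoint) (q x) ⟨x, hx, rfl⟩ hx'
      exact hq (h1.trans (map_zero q).symm)
    · rw [codisjoint_iff, eq_top_iff]
      intro x _
      have h1 : q x ∈ U.map q ⊔ C := by
        rw [hUC.codisjoint.eq_top]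
        exact Submodule.mem_top
      obtain ⟨_, ⟨u, hu, rfl⟩, y, hy, hxy⟩ := Submodule.mem_sup.1 h1
      refine Submodule.mem_sup.2 ⟨u, hu, x - u, ?_, by abel⟩
      change q (x - u) ∈ C
      rw [map_sub, ← hxy, add_sub_cancel_left]
      exact hy

theorem ssf_of_surj {σ : Γ → (M →ₗ[K] M)} {σ' : Γ → (M' →ₗ[K] M')} (h : SSF σ)
    (q : M →ₗ[K] M') (hq : Surjective q) (c : Γ → K) (hc : ∀ g, c g ≠ 0) {Δ₀ : Subgroup Γ}
    (hΔ₀ : Δ₀.FiniteIndex) (hqa : ∀ g ∈ Δ₀, ∀ x, q (σ g x) = c g • σ' g (q x)) : SSF σ' := by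
  intro Δ hΔ U hU
  obtain ⟨Δ', hΔ', hle, C, hC, hUC⟩ := h (Δ ⊓ Δ₀) inferInstance (U.comap q) (by
    intro g hg u hu
    change q (σ g u) ∈ U
    rw [hqa g hg.2]
    exact Submodule.smul_mem _ _ (hU g hg.1 _ hu))
  refine ⟨Δ', hΔ', hle.trans inf_le_left, C.map q, ?_, ?_⟩
  · rintro g hg _ ⟨u, hu, rfl⟩
    have h1 : σ' g (q u) = (c g)⁻¹ • q (σ g u) := by
      rw [hqa g (hle hg).2, smul_smul, inv_mul_cancel₀ (hc g), one_smul]
    rw [h1]
    exact Submodule.smul_mem _ _ ⟨_, hC g hg u hu, rfl⟩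
  · constructor
    · rw [Submodule.disjoint_def]
      rintro _ hx ⟨x, hx', rfl⟩
      have h1 := (Submodule.disjoint_def.1 hUC.disjoint) x hx hx'
      rw [h1, map_zero]
    · rw [codisjoint_iff, eq_top_iff]
      intro y _
      obtain ⟨x, rfl⟩ := hq y
      have h1 : x ∈ U.comap q ⊔ C := by
        rw [hUC.codisjoint.eq_top]
        exact Submodule.mem_top
      obtain ⟨u, hu, z, hz, rfl⟩ := Submodule.mem_sup.1 h1
      rw [map_add]
      exact Submodule.add_mem_sup hu ⟨z, hz, rfl⟩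

/-- projectors -/
theorem exists_proj {σ : Γ → (M →ₗ[K] M)} (h : SSF σ) {Δ : Subgroup Γ} (hΔ : Δ.FiniteIndex)
    {U : Submodule K M} (hU : Stab σ Δ U) : ∃ Δ' : Subgroup Γ, Δ'.FiniteIndex ∧ Δ' ≤ Δ ∧
      ∃ P : M →ₗ[K] M, (∀ x, P x ∈ U) ∧
      (∀ x ∈ U, P x = x) ∧ ∀ g ∈ Δ', ∀ x, P (σ g x) = σ g (P x) := by
  obtain ⟨Δ', hΔ', hle, C, hC, hUC⟩ := h Δ hΔ U hU
  refine ⟨Δ', hΔ', hle, Submodule.projection U C hUC, fun x => Submodule.projection_apply_mem hUC x,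
    fun x hx => Submodule.projection_apply_left hUC ⟨x, hx⟩, fun g hg x => ?_⟩
  have h1 : x ∈ U ⊔ C := by
    rw [hUC.codisjoint.eq_top]
    exact Submodule.mem_top
  obtain ⟨u, hu, z, hz, rfl⟩ := Submodule.mem_sup.1 h1
  have h2 : ∀ z ∈ C, Submodule.projection U C hUC z = 0 := fun z hz =>
    (Submodule.projection_apply_eq_zero_iff hUC).2 hz
  have h3 : ∀ u ∈ U, Submodule.projection U C hUC u = u := fun u hu =>
    Submodule.projection_apply_left hUC ⟨u, hu⟩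
  rw [map_add, map_add, map_add, h3 _ (hU g (hle hg) u hu), h2 _ (hC g hg z hz), h3 u hu, h2 z hz,
    add_zero, add_zero]

/-- **Transfer of eigenvalues.** -/
theorem eig_transfer {V : Type*} [AddCommGroup V] [Module K V] [Module.Finite K V]
    (T : V →ₗ[K] V) (A : V →ₗ[K] M') (f' : M' →ₗ[K] M') (hA : ∀ x, A (T x) = f' (A x))
    (Ψ : V →ₗ[K] M) (f : M →ₗ[K] M) {c : K} (hΨ : ∀ x, f (Ψ x) = c • Ψ (T x))
    (hker : ∀ x, Ψ x = 0 → A x = 0) {a : K} {y : V} (hy : A y ≠ 0) (hya : f' (A y) = a • A y) :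
    ∃ z, Ψ z ≠ 0 ∧ f (Ψ z) = (c * a) • Ψ z := by
  by_contra hcon
  push Not at hcon
  -- the operator on the range of Ψ
  have hst : ∀ m ∈ LinearMap.range Ψ, (f - (c * a) • (1 : M →ₗ[K] M)) m ∈ LinearMap.range Ψ := by
    rintro _ ⟨x, rfl⟩
    refine ⟨c • T x - (c * a) • x, ?_⟩
    rw [map_sub, map_smul, map_smul, LinearMap.sub_apply, hΨ, LinearMap.smul_apply,
      Module.End.one_apply]
  set g : LinearMap.range Ψ →ₗ[K] LinearMap.range Ψ :=
    (f - (c * a) • (1 : M →ₗ[K] M)).restrict hst with hg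
  have hinj : Injective g := by
    rw [injective_iff_map_eq_zero]
    rintro ⟨_, ⟨x, rfl⟩⟩ hx
    have h1 : (f - (c * a) • (1 : M →ₗ[K] M)) (Ψ x) = 0 := congrArg Subtype.val hx
    rw [LinearMap.sub_apply, LinearMap.smul_apply, Module.End.one_apply, sub_eq_zero] at h1
    by_contra h2
    exact hcon x (fun h3 => h2 (Subtype.ext h3)) h1
  have hsurj : Surjective g := LinearMap.injective_iff_surjective.1 hinj
  have hst' : ∀ m ∈ LinearMap.range A, (f' - a • (1 : M' →ₗ[K] M')) m ∈ LinearMap.range A := by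
    rintro _ ⟨x, rfl⟩
    refine ⟨T x - a • x, ?_⟩
    rw [map_sub, map_smul, hA, LinearMap.sub_apply, LinearMap.smul_apply, Module.End.one_apply]
  set g' : LinearMap.range A →ₗ[K] LinearMap.range A :=
    (f' - a • (1 : M' →ₗ[K] M')).restrict hst' with hg'
  have hsurj' : Surjective g' := by
    rintro ⟨_, ⟨x, rfl⟩⟩
    obtain ⟨⟨_, ⟨z, rfl⟩⟩, hz⟩ := hsurj ⟨Ψ x, ⟨x, rfl⟩⟩
    have h1 : f (Ψ z) - (c * a) • Ψ z = Ψ x := congrArg Subtype.val hz
    have h2 : Ψ (c • (T z - a • z) - x) = 0 := by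
      rw [map_sub, map_smul, map_sub, map_smul, smul_sub, ← hΨ, smul_smul, h1, sub_self]
    have h3 := hker _ h2
    rw [map_sub, map_smul, map_sub, map_smul, hA, sub_eq_zero] at h3
    refine ⟨c • ⟨A z, ⟨z, rfl⟩⟩, Subtype.ext ?_⟩
    rw [map_smul]
    exact h3
  have hinj' : Injective g' := LinearMap.injective_iff_surjective.2 hsurj'
  apply hy
  have h4 : g' ⟨A y, ⟨y, rfl⟩⟩ = 0 := by
    apply Subtype.ext
    change f' (A y) - a • A y = 0
    rw [hya, sub_self]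
  exact congrArg Subtype.val ((injective_iff_map_eq_zero g').1 hinj' _ h4)

/-! ### valuation rings -/

theorem isIntegral_of_val {x : K} (h : ∀ A : ValuationSubring K, x ∈ A) : IsIntegral ℤ x := by
  have h1 := iInf_valuationSubring_superset (K := K) (s := ∅)
  have h2 : x ∈ (integralClosure (Subring.closure (∅ : Set K)) K).toSubring := by
    rw [← h1, Subring.mem_iInf]
    exact fun V => h V.1
  have h3 : IsIntegral (Subring.closure (∅ : Set K)) x := h2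
  have h4 : Algebra.IsIntegral ℤ (Subring.closure (∅ : Set K)) := by
    refine ⟨fun y => ?_⟩
    have h5 : (y : K) ∈ (algebraMap ℤ K).range := by
      have h6 : Subring.closure (∅ : Set K) ≤ (algebraMap ℤ K).range :=
        Subring.closure_le.2 (Set.empty_subset _)
      exact h6 y.2
    obtain ⟨n, hn⟩ := h5
    have h7 : y = algebraMap ℤ _ n := by
      apply Subtype.ext
      rw [← hn]
      simp
    rw [h7]
    exact isIntegral_algebraMap
  exact isIntegral_trans x h3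

theorem val_of_isIntegral {x : K} (h : IsIntegral ℤ x) (A : ValuationSubring K) : x ∈ A := by
  have h1 : IsIntegral A x := h.tower_top
  obtain ⟨y, hy⟩ := IsIntegrallyClosed.isIntegral_iff.1 h1
  rw [← hy]
  exact y.2

theorem val_pow {x : K} {r : ℕ} (hr : 0 < r) (A : ValuationSubring K) (h : x ^ r ∈ A) :
    x ∈ A := by
  have h1 : IsIntegral A x := by
    refine IsIntegral.of_pow hr ?_
    exact isIntegral_algebraMap (x := (⟨x ^ r, h⟩ : A))
  obtain ⟨y, hy⟩ := IsIntegrallyClosed.isIntegral_iff.1 h1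
  rw [← hy]
  exact y.2

end Run7.h190.GT
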