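import Pool.Agent.Run7.h190.GT.Act

/-!
# Matchings of the inputs and the outputs
-/

open Finset Function

set_option linter.unusedSectionVars false
set_option linter.deprecated false

namespace Run7.h190.GT

variable {K : Type} [Field K] {T : Type} [AddCommGroup T] [Module K T]
  {V : Type} [AddCommGroup V] [Module K V] {S : Type}

section count

variable {m : ℕ} [Fintype S] (e : Fin m × Fin 2 ≃ S ⊕ S)

/-- the number of inputs in a pair -/
def cnt (l : Fin m) : ℕ :=
  (if (e (l, 0)).isLeft then 1 else 0) + (if (e (l, 1)).isLeft then 1 else 0)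

include e in
theorem card_eq : m = Fintype.card S := by
  have h := Fintype.card_congr e
  rw [Fintype.card_prod, Fintype.card_fin, Fintype.card_fin, Fintype.card_sum] at h
  omega

theorem sum_cnt : ∑ l, cnt e l = m := by
  have h1 : ∑ l, cnt e l = ∑ p : Fin m × Fin 2, (if (e p).isLeft then 1 else 0) := by
    rw [Fintype.sum_prod_type]
    refine Finset.sum_congr rfl fun l _ => ?_
    rw [Fin.sum_univ_two]
    rfl
  rw [h1, e.sum_comp fun x => if x.isLeft then 1 else 0, Fintype.sum_sum_type]
  simp only [Sum.isLeft_inl, Sum.isLeft_inr, if_true, Finset.sum_const, Finset.card_univ,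
    smul_eq_mul, mul_one]
  simp only [Bool.false_eq_true, if_false, Finset.sum_const_zero, add_zero]
  exact (card_eq e).symm

/-- all pairs consist of an input and an output -/
def Thr : Prop := ∀ l, (e (l, 0)).isLeft ≠ (e (l, 1)).isLeft

theorem thr_of_cnt (h : ∀ l, cnt e l = 1) : Thr e := by
  intro l hl
  have h1 := h l
  rw [cnt, hl] at h1
  split at h1 <;> omega

theorem thr_of_not_out (h : ∀ l, ¬ ((e (l, 0)).isLeft = false ∧ (e (l, 1)).isLeft = false)) :
    Thr e := by
  apply thr_of_cnt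
  have h1 : ∀ l ∈ univ, 1 ≤ cnt e l := by
    intro l _
    have h2 := h l
    rw [cnt]
    by_cases h3 : (e (l, 0)).isLeft
    · rw [if_pos h3]
      omega
    · by_cases h4 : (e (l, 1)).isLeft
      · rw [if_pos h4]
        omega
      · exact absurd ⟨Bool.eq_false_iff.2 h3, Bool.eq_false_iff.2 h4⟩ h2
  have h2 : ∑ l : Fin m, 1 = ∑ l, cnt e l := by
    rw [sum_cnt, Finset.sum_const, Finset.card_univ, Fintype.card_fin, smul_eq_mul, mul_one]
  intro l
  exact ((Finset.sum_eq_sum_iff_of_le h1).1 h2 l (mem_univ l)).symm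

theorem thr_of_not_in (h : ∀ l, ¬ ((e (l, 0)).isLeft = true ∧ (e (l, 1)).isLeft = true)) :
    Thr e := by
  apply thr_of_cnt
  have h1 : ∀ l ∈ univ, cnt e l ≤ 1 := by
    intro l _
    have h2 := h l
    rw [cnt]
    by_cases h3 : (e (l, 0)).isLeft
    · by_cases h4 : (e (l, 1)).isLeft
      · exact absurd ⟨h3, h4⟩ h2
      · rw [if_pos h3, if_neg h4]
    · rw [if_neg h3]
      split <;> omega
  have h2 : ∑ l, cnt e l = ∑ l : Fin m, 1 := by
    rw [sum_cnt, Finset.sum_const, Finset.card_univ, Fintype.card_fin, smul_eq_mul, mul_one]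
  intro l
  exact (Finset.sum_eq_sum_iff_of_le h1).1 h2 l (mem_univ l)

/-- a matching which is not through has a pair of outputs -/
theorem exists_out (h : ¬ Thr e) : ∃ l a b, e (l, 0) = Sum.inr a ∧ e (l, 1) = Sum.inr b := by
  by_contra hcon
  push Not at hcon
  refine h (thr_of_not_out e fun l hl => ?_)
  obtain ⟨h1, h2⟩ := hl
  cases h3 : e (l, 0) with
  | inl a => rw [h3] at h1; cases h1
  | inr a =>
    cases h4 : e (l, 1) with
    | inl b => rw [h4] at h2; cases h2
    | inr b => exact hcon l a b h3 h4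

/-- a matching which is not through has a pair of inputs -/
theorem exists_in (h : ¬ Thr e) : ∃ l a b, e (l, 0) = Sum.inl a ∧ e (l, 1) = Sum.inl b := by
  by_contra hcon
  push Not at hcon
  refine h (thr_of_not_in e fun l hl => ?_)
  obtain ⟨h1, h2⟩ := hl
  cases h3 : e (l, 0) with
  | inr a => rw [h3] at h1; cases h1
  | inl a =>
    cases h4 : e (l, 1) with
    | inr b => rw [h4] at h2; cases h2
    | inl b => exact hcon l a b h3 h4

theorem ne_of_pair {l : Fin m} {a b : S} (h0 : e (l, 0) = Sum.inr a) (h1 : e (l, 1) = Sum.inr b) :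
    a ≠ b := by
  rintro rfl
  have h2 := e.injective (h0.trans h1.symm)
  exact absurd (Prod.mk.inj h2).2 (by decide)

theorem ne_of_pair' {l : Fin m} {a b : S} (h0 : e (l, 0) = Sum.inl a) (h1 : e (l, 1) = Sum.inl b) :
    a ≠ b := by
  rintro rfl
  have h2 := e.injective (h0.trans h1.symm)
  exact absurd (Prod.mk.inj h2).2 (by decide)

variable [DecidableEq S]

/-- the structure of the through matchings -/
theorem Thr.data (h : Thr e) {B : T →ₗ[K] T →ₗ[K] K} {sg : K} (hsg : sg ≠ 0)
    (hsy : ∀ x y, B x y = sg * B y x) : ∃ (ε : K) (a b : Fin m → S), ε ≠ 0 ∧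
      Function.Bijective a ∧ Function.Bijective b ∧
      ∀ u s : S → T, beta B e (Sum.elim u s) = ε * ∏ l, B (u (a l)) (s (b l)) := by
  have h1 : ∀ l, ∃ a b : S, (e (l, 0) = Sum.inl a ∧ e (l, 1) = Sum.inr b) ∨
      (e (l, 0) = Sum.inr b ∧ e (l, 1) = Sum.inl a) := by
    intro l
    have h2 := h l
    cases h3 : e (l, 0) with
    | inl a =>
      cases h4 : e (l, 1) with
      | inl b => rw [h3, h4] at h2; exact absurd rfl h2
      | inr b => exact ⟨a, b, Or.inl ⟨rfl, rfl⟩⟩
    | inr b =>
      cases h4 : e (l, 1) with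
      | inl a => exact ⟨a, b, Or.inr ⟨rfl, rfl⟩⟩
      | inr a => rw [h3, h4] at h2; exact absurd rfl h2
  choose a b hab using h1
  have ha : Function.Injective a := by
    intro l l' hll
    have key : ∀ l, ∃ j, e (l, j) = Sum.inl (a l) := by
      intro l
      rcases hab l with h | h
      · exact ⟨0, h.1⟩
      · exact ⟨1, h.2⟩
    obtain ⟨j, hj⟩ := key l
    obtain ⟨j', hj'⟩ := key l'
    exact (Prod.mk.inj (e.injective ((hj.trans (congrArg Sum.inl hll)).trans hj'.symm))).1
  have hb : Function.Injective b := by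
    intro l l' hll
    have key : ∀ l, ∃ j, e (l, j) = Sum.inr (b l) := by
      intro l
      rcases hab l with h | h
      · exact ⟨1, h.2⟩
      · exact ⟨0, h.1⟩
    obtain ⟨j, hj⟩ := key l
    obtain ⟨j', hj'⟩ := key l'
    exact (Prod.mk.inj (e.injective ((hj.trans (congrArg Sum.inr hll)).trans hj'.symm))).1
  have hc : Fintype.card (Fin m) = Fintype.card S := by
    rw [Fintype.card_fin]
    exact card_eq e
  refine ⟨∏ l, (if (e (l, 0)).isLeft then 1 else sg), a, b, ?_,
    (Fintype.bijective_iff_injective_and_card a).2 ⟨ha, hc⟩,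
    (Fintype.bijective_iff_injective_and_card b).2 ⟨hb, hc⟩, fun u s => ?_⟩
  · refine Finset.prod_ne_zero_iff.2 fun l _ => ?_
    split
    · exact one_ne_zero
    · exact hsg
  · rw [beta, ← Finset.prod_mul_distrib]
    refine Finset.prod_congr rfl fun l _ => ?_
    rcases hab l with h | h
    · rw [h.1, h.2, Sum.elim_inl, Sum.elim_inr, Sum.isLeft_inl, if_pos rfl, one_mul]
    · rw [h.1, h.2, Sum.elim_inl, Sum.elim_inr, Sum.isLeft_inr, if_neg (by decide), hsy]

/-- the permutation of a through matching -/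
theorem Thr.perm (h : Thr e) {B : T →ₗ[K] T →ₗ[K] K} {sg : K} (hsg : sg ≠ 0)
    (hsy : ∀ x y, B x y = sg * B y x) : ∃ (ε : K) (σ : S → S), ε ≠ 0 ∧ Function.Bijective σ ∧
      ∀ u s : S → T, beta B e (Sum.elim u s) = ε * ∏ b, B (u (σ b)) (s b) := by
  obtain ⟨ε, a, b, hε, ha, hb, h1⟩ := h.data e hsg hsy
  refine ⟨ε, a ∘ (Equiv.ofBijective b hb).symm, hε,
    ha.comp (Equiv.ofBijective b hb).symm.bijective, fun u s => ?_⟩
  rw [h1]
  congr 1
  refine Fintype.prod_equiv (Equiv.ofBijective b hb) _ _ fun l => ?_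
  have h2 : (a ∘ (Equiv.ofBijective b hb).symm) ((Equiv.ofBijective b hb) l) = a l := by
    rw [Function.comp_apply, Equiv.symm_apply_apply]
  rw [h2]
  rfl

end count

/-- Linear combinations with linearly independent coefficient functions. -/
theorem exists_li {X M : Type} [Finite X] [AddCommGroup M] [Module K M] (𝒢 : Set (X → K))
    {F : X → M} (hF : F ∈ Submodule.span K {f : X → M | ∃ g ∈ 𝒢, ∃ w : M, f = fun x => g x • w}) :
    ∃ (N : ℕ) (g : Fin N → X → K) (w : Fin N → M), (∀ i, g i ∈ 𝒢) ∧ LinearIndependent K g ∧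
      F = fun x => ∑ i, g i x • w i := by
  obtain ⟨b, hb1, hb2, hb3⟩ := exists_linearIndependent K 𝒢
  have hfin : Finite b := hb3.finite
  obtain ⟨N, ⟨ε⟩⟩ := Finite.exists_equiv_fin b
  have hspan : ∀ g ∈ 𝒢, ∃ c : Fin N → K, g = ∑ i, c i • ((ε.symm i : b) : X → K) := by
    intro g hg
    have h1 : g ∈ Submodule.span K (Set.range fun i : Fin N => ((ε.symm i : b) : X → K)) := by
      have h2 : Set.range (fun i : Fin N => ((ε.symm i : b) : X → K)) = b := by
        ext y
        constructor
        · rintro ⟨i, rfl⟩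
          exact (ε.symm i).2
        · intro hy
          exact ⟨ε ⟨y, hy⟩, by simp⟩
      rw [h2, hb2]
      exact Submodule.subset_span hg
    obtain ⟨c, hc⟩ := (Submodule.mem_span_range_iff_exists_fun K).1 h1
    exact ⟨c, hc.symm⟩
  refine ⟨N, fun i => (ε.symm i : b), ?_⟩
  have h1 : ∃ w : Fin N → M, F = fun x => ∑ i, ((ε.symm i : b) : X → K) x • w i := by
    induction hF using Submodule.span_induction with
    | mem f hf =>
      obtain ⟨g, hg, w, rfl⟩ := hf
      obtain ⟨c, hc⟩ := hspan g hg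
      refine ⟨fun i => c i • w, funext fun x => ?_⟩
      rw [hc, Finset.sum_apply, Finset.sum_smul]
      refine Finset.sum_congr rfl fun i _ => ?_
      rw [Pi.smul_apply, smul_smul, smul_eq_mul, mul_comm]
    | zero => exact ⟨0, funext fun x => by simp⟩
    | add f f' _ _ hf hf' =>
      obtain ⟨w, rfl⟩ := hf
      obtain ⟨w', rfl⟩ := hf'
      refine ⟨w + w', funext fun x => ?_⟩
      simp only [Pi.add_apply, smul_add, Finset.sum_add_distrib]
    | smul c f _ hf =>
      obtain ⟨w, rfl⟩ := hf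
      refine ⟨c • w, funext fun x => ?_⟩
      simp only [Pi.smul_apply]
      rw [Finset.smul_sum]
      exact Finset.sum_congr rfl fun i _ => smul_comm _ _ _
  obtain ⟨w, hw⟩ := h1
  exact ⟨w, fun i => hb1 (ε.symm i).2, hb3.comp _ ε.symm.injective, hw⟩

theorem li_vec {X M : Type} [AddCommGroup M] [Module K M] {N : ℕ} {g : Fin N → X → K}
    (hg : LinearIndependent K g) {w : Fin N → M} (h : ∀ x, ∑ i, g i x • w i = 0) (i : Fin N) :
    w i = 0 := by
  rw [← Module.forall_dual_apply_eq_zero_iff K]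
  intro φ
  have h1 : ∑ i, φ (w i) • g i = 0 := by
    funext x
    rw [Finset.sum_apply]
    have h2 := congrArg φ (h x)
    rw [map_sum, map_zero] at h2
    rw [Pi.zero_apply, ← h2]
    refine Finset.sum_congr rfl fun j _ => ?_
    rw [map_smul, Pi.smul_apply, smul_eq_mul, smul_eq_mul, mul_comm]
  exact Fintype.linearIndependent_iff.1 hg _ h1 i

open Pool.Agent.TH125.Nod in
/-- **Kernels as combinations of linearly independent matchings.** -/
theorem exists_kernels {J : Type} [Fintype J] [DecidableEq J] [Fintype S] [DecidableEq S]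
    {B : T →ₗ[K] T →ₗ[K] K} (t : Module.Basis J K T) {E : Type} [AddCommGroup E] [Module K E]
    {H : MultilinearMap K (fun _ : S ⊕ S => T) E}
    (hH : (fun r : S ⊕ S → J => H fun j => t (r j)) ∈ Gen (fun _ : J => ())
      (Matrix.of fun i j => B (t i) (t j)) (fun _ : S ⊕ S => ())) :
    ∃ (N : ℕ) (e : Fin N → Fin (Fintype.card S) × Fin 2 ≃ S ⊕ S) (A : Fin N → E),
      LinearIndependent K (fun i => fun r : S ⊕ S → J => beta B (e i) fun j => t (r j)) ∧
      H = ∑ i, bm B (e i) (A i) := by
  obtain ⟨N, g, w, h1, h2, h3⟩ := exists_li (K := K) (X := S ⊕ S → J) (M := E)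
    {g | ∃ e : Fin (Fintype.card S) × Fin 2 ≃ S ⊕ S, g = fun r => beta B e fun j => t (r j)}
    (F := fun r : S ⊕ S → J => H fun j => t (r j)) (by
      refine Submodule.span_mono ?_ hH
      rintro _ ⟨m, e, w, rfl⟩
      obtain rfl : m = Fintype.card S := card_eq e
      refine ⟨_, ⟨e, rfl⟩, w, funext fun r => ?_⟩
      rw [gen, if_pos (fun _ => rfl)]
      rfl)
  choose e he using h1
  refine ⟨N, e, w, ?_, ?_⟩
  · convert h2 using 1
    funext i
    exact (he i).symm
  · refine Module.Basis.ext_multilinear (fun _ => t) fun r => ?_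
    rw [MultilinearMap.sum_apply]
    have h4 := congrFun h3 r
    refine h4.trans (Finset.sum_congr rfl fun i _ => ?_)
    rw [bm_apply, he i]

end Run7.h190.GT
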