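import Pool.Agent.Run7.h190.GT.Geo

/-!
# The generalized Tate conjecture for products with powers
-/

open CategoryTheory AlgebraicGeometry Finset Function

set_option linter.unusedSectionVars false
set_option linter.deprecated false

universe u

namespace Run7.h190.GT

open Pool.Agent.TH125.Gal Pool.Agent.TH118.SG
open Pool.Agent.H914 Pool.Agent.H914.VarClass Pool.Agent.H914.VarClass.Obj
  Pool.Agent.H914.WeilCohomology Pool.Agent.H281R3.HT Pool.Agent.W552

variable {k : Type u} [Field k] {𝒱 : VarClass k} {ops : CycleOps 𝒱}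
  {W : WeilCohomology.{u, 0} ops} {P : Polarized 𝒱} {n : ℕ} {Z : 𝒱.Obj} {s : SB W P.X}
  {Γ : Type} [Group Γ] {χ : Γ →* W.Kˣ} {ρ : Γ →* (W.H P.X ≃ₐ[W.K] W.H P.X)}
  {τ : Γ →* (W.H Z ≃ₐ[W.K] W.H Z)}
  {υ : Γ →* (W.H ((nest ops n fun _ => P).X.prod Z) ≃ₐ[W.K]
    W.H ((nest ops n fun _ => P).X.prod Z))}

/-- the linear action -/
noncomputable def lin {A : 𝒱.Obj} (τ : Γ →* (W.H A ≃ₐ[W.K] W.H A)) :
    Γ →* (W.H A →ₗ[W.K] W.H A) where
  toFun g := (τ g).toLinearMap
  map_one' := by
    rw [map_one]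
    rfl
  map_mul' g g' := by
    rw [map_mul]
    rfl

theorem lin_apply {A : 𝒱.Obj} (τ : Γ →* (W.H A ≃ₐ[W.K] W.H A)) (g : Γ) (x : W.H A) :
    lin τ g x = τ g x := rfl

/-- The generalized Tate conjecture, without the grading. -/
def GTU (𝓟 : Set Γ) (χ : Γ →* W.Kˣ) {A : 𝒱.Obj} (τ : Γ →* (W.H A ≃ₐ[W.K] W.H A)) : Prop :=
  ∀ Δ : Subgroup Γ, Δ.FiniteIndex → ∀ (ν : ℕ) (U : Submodule W.K (W.H A)),
    Stab (fun g => lin τ g) Δ U → EffF (fun g => lin τ g) 𝓟 χ (-(ν : ℤ)) Δ U → U ≤ cv W ν A

/-- The Lie algebras for the endomorphisms of `H(Z)` are the whole ones. -/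
def FullEnd (χ : Γ →* W.Kˣ) (hG : IsGalois W χ P.X ρ) (τ : Γ →* (W.H Z ≃ₐ[W.K] W.H Z)) : Prop :=
  ∀ (S : Type) [Fintype S] [DecidableEq S] (lam : Γ →* W.Kˣ),
    (∀ g, χ g = 1 → lam g = 1) → ∀ x y,
    rk (rform W P.X (transcendental W P.X)) y x -
      ((((-1 : ℤ) ^ P.X.dim : ℤ)) : W.K) • rk (rform W P.X (transcendental W P.X)) x y
      ∈ LL S (rform W P.X (transcendental W P.X)) (rhoT hG) (conj lam (lin τ))

/-- the codimension of the fixed classes of a pattern -/
def cod (s : SB W P.X) (c₀ : Fin (n + 1) → Option (Fin s.NC)) : ℕ :=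
  ∑ p, (c₀ p).elim 0 s.jC

theorem prod_gr {A : 𝒱.Obj} {Λ : Type} (l : List Λ) (x : Λ → W.H A) (D : Λ → ℕ)
    (h : ∀ p ∈ l, x p ∈ W.gr A (2 * D p)) : (l.map x).prod ∈ W.gr A (2 * (l.map D).sum) := by
  induction l with
  | nil => exact W.one_mem A
  | cons p l ih =>
    simp only [List.map_cons, List.prod_cons, List.sum_cons, mul_add]
    exact W.mul_mem (h p List.mem_cons_self) (ih fun q hq => h q (List.mem_cons_of_mem _ hq))

theorem prod_alg {A : 𝒱.Obj} {Λ : Type} (l : List Λ) (x : Λ → W.H A)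
    (h : ∀ p ∈ l, x p ∈ algSpan W A) : (l.map x).prod ∈ algSpan W A := by
  induction l with
  | nil => exact algSpan_one
  | cons p l ih =>
    rw [List.map_cons, List.prod_cons]
    exact algSpan_mul (h p List.mem_cons_self) (ih fun q hq => h q (List.mem_cons_of_mem _ hq))

section

variable {b : Module.Basis (Fin (n + 1) → Fin s.NC ⊕ Fin s.NT) W.K (W.H (nest ops n fun _ => P).X)}
  (hb : ∀ r, b r = mono (prj ops n fun _ => P) fun p => s.e (r p))

/-- the class of the multilinear map at a pattern -/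
noncomputable def FF (b : Module.Basis (Fin (n + 1) → Fin s.NC ⊕ Fin s.NT) W.K
    (W.H (nest ops n fun _ => P).X)) (c₀ : Fin (n + 1) → Option (Fin s.NC))
    (h : Mul W.K (transcendental W P.X) (W.H Z) (Free c₀)) :
    W.H ((nest ops n fun _ => P).X.prod Z) :=
  ∑ r : Free c₀ → Fin s.NT, W.map (fst _ Z) (b (comb c₀ r)) * W.map (snd _ Z) (h fun a => s.uT (r a))

include hb in
theorem sum_FF (c : W.H ((nest ops n fun _ => P).X.prod Z)) :
    c = ∑ c₀, FF b c₀ (hS s b c c₀) := by
  conv_lhs => rw [expand b c, sum_patterns]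
  refine Finset.sum_congr rfl fun c₀ _ => ?_
  rw [FF]
  refine Finset.sum_congr rfl fun r _ => ?_
  rw [hS_comb, coord_eq hb]

include hb in
theorem FF_mem (hcyc : ∀ (Y : 𝒱.Obj) (j : ℕ) (z : Y.Cycles), Y.IsCyc j z → W.cl Y z ∈ cv W j Y)
    (hDX : HomEqNum W P.X) (hmid : transcendental W P.X ≤ W.gr P.X P.X.dim)
    {c₀ : Fin (n + 1) → Option (Fin s.NC)} {ν : ℕ}
    {h : Mul W.K (transcendental W P.X) (W.H Z) (Free c₀)}
    (hg : Good (fun ν => cv W ν Z) (rform W P.X (transcendental W P.X)) P.X.dim (Free c₀) ν h) :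
    FF b c₀ h ∈ cv W (cod s c₀ + ν) ((nest ops n fun _ => P).X.prod Z) := by
  set L : List (Free c₀) := Finset.univ.toList with hLdef
  have hLn : L.Nodup := Finset.nodup_toList _
  have hLm : ∀ x, x ∈ L := fun x => Finset.mem_toList.2 (mem_univ _)
  have hperm : (List.finRange (n + 1)).Perm (L.map Subtype.val ++ fixList c₀) := by
    refine (List.perm_ext_iff_of_nodup (List.nodup_finRange _) ?_).2 fun p => ?_
    · rw [List.nodup_append]
      refine ⟨hLn.map Subtype.val_injective, (List.nodup_finRange _).filter _, ?_⟩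
      intro p hp q hq h
      obtain ⟨x, -, rfl⟩ := List.mem_map.1 hp
      rw [mem_fixList] at hq
      rw [← h] at hq
      exact hq x.2
    · rw [List.mem_append, mem_fixList]
      refine iff_of_true (List.mem_finRange _) ?_
      by_cases hp : c₀ p = none
      · exact Or.inl (List.mem_map.2 ⟨⟨p, hp⟩, hLm _, rfl⟩)
      · exact Or.inr hp
  set π := prj ops n (fun _ => P) with hπ
  set D : Fin (n + 1) → ℕ := fun p => (c₀ p).elim P.X.dim fun i => 2 * s.jC i with hD
  obtain ⟨ε, hε, hperm'⟩ := perm_sign (K := W.K) (A := W.H (nest ops n fun _ => P).X) D hperm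
    (List.nodup_finRange _)
  have hεK : (ε : W.K) * (ε : W.K) = 1 := by
    rw [← Int.cast_mul, hε, Int.cast_one]
  set fx : Fin (n + 1) → W.H (nest ops n fun _ => P).X :=
    fun p => (c₀ p).elim 1 fun i => W.map (π p) (s.bC i : W.H P.X) with hfx
  have hgr : ∀ (r : Free c₀ → Fin s.NT) p, W.map (π p) (s.e (comb c₀ r p)) ∈ W.gr _ (D p) := by
    intro r p
    refine W.map_mem _ ?_
    cases hp : c₀ p with
    | none =>
      rw [comb_none r ⟨p, hp⟩, s.e_inr, hD]
      beta_reduce
      rw [hp]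
      exact hmid (s.bT _).2
    | some i =>
      rw [comb_some r hp, s.e_inl, hD]
      beta_reduce
      rw [hp]
      exact alg_gr (s.alg i)
  have hsplit : ∀ r : Free c₀ → Fin s.NT, b (comb c₀ r) =
      (ε : W.K) • (((fixList c₀).map fx).prod *
        (L.map fun a => W.map (π a.1) (s.bT (r a) : W.H P.X)).prod) := by
    intro r
    have h1 := hperm' (fun p => W.map (π p) (s.e (comb c₀ r p))) fun p q _ =>
        W.comm (hgr r p) (hgr r q)
    rw [List.map_append, List.prod_append, List.map_map] at h1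
    have h3 : (L.map ((fun p => W.map (π p) (s.e (comb c₀ r p))) ∘ Subtype.val)) =
        L.map fun a => W.map (π a.1) (s.bT (r a) : W.H P.X) := by
      refine List.map_congr_left fun a _ => ?_
      rw [Function.comp_apply, comb_none, s.e_inr]
    have h4 : ((fixList c₀).map fun p => W.map (π p) (s.e (comb c₀ r p))) =
        (fixList c₀).map fx := by
      refine List.map_congr_left fun p hp => ?_
      rw [mem_fixList] at hp
      cases h : c₀ p with
      | none => exact absurd h hp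
      | some i =>
        rw [comb_some r h, s.e_inl, hfx]
        beta_reduce
        rw [h]
        rfl
    rw [h3, h4] at h1
    have h2 := congrArg (fun x => (ε : W.K) • x) h1
    beta_reduce at h2
    rw [smul_smul, hεK, one_smul] at h2
    rw [hb, mono, List.ofFn_eq_map, ← h2]
    congr 1
    refine (alg_comm (prod_alg _ _ fun p _ => ?_) _).symm
    rw [hfx]
    beta_reduce
    cases h : c₀ p with
    | none => exact algSpan_one
    | some i => exact algSpan_map _ (s.bC i).2
  have hFF : FF b c₀ h = (ε : W.K) • (W.map (fst _ Z) ((fixList c₀).map fx).prod *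
      RR s (fun a : Free c₀ => π a.1) L h) := by
    rw [FF, RR, Finset.mul_sum, Finset.smul_sum]
    refine Finset.sum_congr rfl fun r _ => ?_
    rw [hsplit, map_smul, smul_mul_assoc, map_mul, mul_assoc]
  rw [hFF]
  refine Submodule.smul_mem _ _ (alg_mul_cv hcyc (algSpan_gr (algSpan_map _ (prod_alg _ _
    fun p _ => ?_)) (W.map_mem _ ?_)) (good_geo hcyc hDX hmid hg _ L hLn hLm))
  · rw [hfx]
    beta_reduce
    cases h : c₀ p with
    | none => exact algSpan_one
    | some i => exact algSpan_map _ (s.bC i).2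
  · have h1 := prod_gr (W := W) (fixList c₀) fx (fun p => (c₀ p).elim 0 s.jC) fun p _ => by
      rw [hfx]
      beta_reduce
      cases h : c₀ p with
      | none => exact W.one_mem _
      | some i => exact W.map_mem _ (alg_gr (s.alg i))
    have h2 : ((fixList c₀).map fun p => (c₀ p).elim 0 s.jC).sum = cod s c₀ := by
      have h3 := (hperm.map fun p => (c₀ p).elim 0 s.jC).sum_eq
      rw [List.map_append, List.sum_append, List.map_map] at h3
      have h4 : (L.map ((fun p => (c₀ p).elim 0 s.jC) ∘ Subtype.val)).sum = 0 := by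
        refine List.sum_eq_zero fun x hx => ?_
        obtain ⟨a, -, rfl⟩ := List.mem_map.1 hx
        rw [Function.comp_apply, a.2]
        rfl
      rw [h4, zero_add] at h3
      rw [← h3, cod, ← List.ofFn_eq_map, List.sum_ofFn]
    rw [h2] at h1
    exact h1

/-- the multilinear map of a pattern, linear in the class -/
noncomputable def hSL (hb : ∀ r, b r = mono (prj ops n fun _ => P) fun p => s.e (r p))
    (c₀ : Fin (n + 1) → Option (Fin s.NC)) :
    W.H ((nest ops n fun _ => P).X.prod Z) →ₗ[W.K]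
      Mul W.K (transcendental W P.X) (W.H Z) (Free c₀) where
  toFun c := hS s b c c₀
  map_add' c c' := by
    ext v
    rw [hS_apply, hml_add hb, MultilinearMap.add_apply, hS_apply, hS_apply]
  map_smul' x c := by
    ext v
    rw [hS_apply, hml_smul hb, MultilinearMap.smul_apply, hS_apply, RingHom.id_apply]

theorem hSL_apply (c₀ : Fin (n + 1) → Option (Fin s.NC))
    (c : W.H ((nest ops n fun _ => P).X.prod Z)) : hSL hb c₀ c = hS s b c c₀ := rfl

theorem hSL_surj (c₀ : Fin (n + 1) → Option (Fin s.NC)) :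
    Surjective (hSL (Z := Z) hb c₀) := by
  intro h
  refine ⟨FF b c₀ h, ?_⟩
  refine Module.Basis.ext_multilinear (fun _ => s.uT) fun r' => ?_
  rw [hSL_apply, hS_comb, ← coord_eq hb, FF, map_sum, Finset.sum_eq_single r']
  · rw [ctr_apply, Module.Basis.coord_apply, Module.Basis.repr_self, Finsupp.single_eq_same,
      one_smul]
  · intro r _ hr
    rw [ctr_apply, Module.Basis.coord_apply, Module.Basis.repr_self, Finsupp.single_eq_of_ne,
      zero_smul]
    intro h1
    apply hr
    funext p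
    have h2 := congrFun h1 p.1
    rw [comb_none, comb_none] at h2
    exact (Sum.inr_injective h2).symm
  · intro h
    exact absurd (mem_univ r') h

/-- **Equivariance.** -/
theorem hSL_act (hG : IsGalois W χ P.X ρ) (hP : IsPowAct W P n Z ρ τ υ) {g : Γ}
    (hg : ∀ i, ρ g (s.bC i) = (χ g : W.K) ^ s.jC i • (s.bC i : W.H P.X))
    (c₀ : Fin (n + 1) → Option (Fin s.NC)) (c : W.H ((nest ops n fun _ => P).X.prod Z)) :
    hSL hb c₀ (υ g c) = (χ g : W.K) ^ (P.X.dim * Fintype.card (Free c₀) + cod s c₀) •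
      act (rhoT hG) (lin τ) (Free c₀) g (hSL hb c₀ c) := by
  have hχ : (χ g : W.K) ≠ 0 := Units.ne_zero _
  ext w
  obtain ⟨v, rfl⟩ : ∃ v : Free c₀ → transcendental W P.X, w = fun a => rhoT hG g (v a) :=
    ⟨fun a => rhoT hG g⁻¹ (w a), funext fun a => (apply_inv (rhoT hG) g (w a)).symm⟩
  rw [MultilinearMap.smul_apply, act_apply]
  simp only [inv_apply]
  rw [hSL_apply, hSL_apply, lin_apply]
  set V : Fin (n + 1) → W.H P.X := fun p =>
    if h : c₀ p = none then (v ⟨p, h⟩ : W.H P.X) else fixv s c₀ ⟨p, h⟩ with hV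
  have h1 : (fun p => if h : c₀ p = none then ((rhoT hG g (v ⟨p, h⟩) : transcendental W P.X) :
      W.H P.X) else fixv s c₀ ⟨p, h⟩) = fun p => ((χ g : W.K) ^ fixw s c₀ p)⁻¹ • ρ g (V p) := by
    funext p
    by_cases h : c₀ p = none
    · rw [dif_pos h, hV]
      beta_reduce
      rw [dif_pos h, fixw, h, rhoT_apply]
      simp
    · obtain ⟨i, hi⟩ := Option.ne_none_iff_exists'.1 h
      rw [dif_neg h, hV]
      beta_reduce
      rw [dif_neg h, fixv_some hi, uC_act hG s hg, fixw, hi, smul_smul]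
      change _ = (((χ g : W.K) ^ (P.X.dim - s.jC i))⁻¹ * (χ g : W.K) ^ (P.X.dim - s.jC i)) •
        (s.uC i : W.H P.X)
      rw [inv_mul_cancel₀ (pow_ne_zero _ hχ), one_smul]
  rw [hS_apply, h1, MultilinearMap.map_smul_univ, hml_equiv hb (bil_act hG g) (hP g).1 (hP g).2,
    smul_smul, hS_apply]
  congr 1
  have h2 : ∏ p : Fin (n + 1), ((χ g : W.K) ^ fixw s c₀ p)⁻¹ * (χ g : W.K) ^ P.X.dim =
      (χ g : W.K) ^ ∑ p : Fin (n + 1), (c₀ p).elim P.X.dim s.jC := by
    rw [← Finset.prod_pow_eq_pow_sum]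
    refine Finset.prod_congr rfl fun p _ => ?_
    rw [fixw]
    cases h : c₀ p with
    | none =>
      change ((χ g : W.K) ^ 0)⁻¹ * (χ g : W.K) ^ P.X.dim = (χ g : W.K) ^ P.X.dim
      rw [pow_zero, inv_one, one_mul]
    | some i =>
      change ((χ g : W.K) ^ (P.X.dim - s.jC i))⁻¹ * (χ g : W.K) ^ P.X.dim = (χ g : W.K) ^ s.jC i
      have h3 : (χ g : W.K) ^ P.X.dim = (χ g : W.K) ^ (P.X.dim - s.jC i) * (χ g : W.K) ^ s.jC i := by
        rw [← pow_add, Nat.sub_add_cancel (jC_le s i)]
      rw [h3, ← mul_assoc, inv_mul_cancel₀ (pow_ne_zero _ hχ), one_mul]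
  have h4 : ∑ p : Fin (n + 1), (c₀ p).elim P.X.dim s.jC =
      P.X.dim * Fintype.card (Free c₀) + cod s c₀ := by
    have h5 : ∀ p : Fin (n + 1), (c₀ p).elim P.X.dim s.jC =
        (if c₀ p = none then P.X.dim else 0) + (c₀ p).elim 0 s.jC := by
      intro p
      cases h : c₀ p with
      | none => simp
      | some i => simp
    rw [Finset.sum_congr rfl fun p _ => h5 p, Finset.sum_add_distrib, cod, Finset.sum_ite,
      Finset.sum_const_zero, add_zero, Finset.sum_const, smul_eq_mul, Fintype.card_subtype,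
      mul_comm]
  rw [← h4, ← h2, Finset.prod_mul_distrib, Finset.prod_const, Finset.card_univ, Fintype.card_fin]

end

end Run7.h190.GT
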