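import Pool.Agent.Run7.h190.EV.TPub

/-!
# The generalized Tate conjecture for varieties with an action of a Galois group: definitions
-/

open CategoryTheory AlgebraicGeometry

namespace Run7.h190.GT

open Pool.Agent.TH125.Gal Pool.Agent.V11219.Loc Run7.h190.EV

section Alg

variable {K : Type} [Field K] {A : Type} [Ring A] [Algebra K A] {Γ : Type} [Group Γ]

/-- The subspace `U` is stable under the subgroup `Δ`. -/
def IsStable (ρ : Γ →* (A ≃ₐ[K] A)) (Δ : Subgroup Γ) (U : Submodule K A) : Prop :=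
  ∀ g ∈ Δ, ∀ u ∈ U, ρ g u ∈ U

/-- The representation is semisimple: for all subgroups `Δ` of finite index every `Δ`-stable subspace
has a `Δ`-stable complement. -/
def IsSemisimpleAct (ρ : Γ →* (A ≃ₐ[K] A)) : Prop :=
  ∀ Δ : Subgroup Γ, Δ.FiniteIndex → ∀ U : Submodule K A, IsStable ρ Δ U →
    ∃ C : Submodule K A, IsStable ρ Δ C ∧ IsCompl U C

/-- The twist `U(ν)` of the `Δ`-stable subspace `U` is effective, for the set `𝓟` of Frobenius
elements: for all `F` in `𝓟` and all `k > 0` with `F ^ k ∈ Δ`, and for all eigenvalues `a` of `F ^ k` on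
`U`, the number `a / χ(F ^ k) ^ ν` is an algebraic integer. -/
def IsEffective (χ : Γ →* Kˣ) (𝓟 : Set Γ) (ρ : Γ →* (A ≃ₐ[K] A)) (Δ : Subgroup Γ) (ν : ℕ)
    (U : Submodule K A) : Prop :=
  ∀ F ∈ 𝓟, ∀ k : ℕ, 0 < k → F ^ k ∈ Δ → ∀ a : K, ∀ u ∈ U, u ≠ 0 → ρ (F ^ k) u = a • u →
    IsIntegral ℤ (a / (χ (F ^ k) : K) ^ ν)

/-- For every valuation ring `O` of the field of the coefficients some power `F ^ r`, `r > 0`, has `m`
linearly independent eigenvectors `w i` in `T` with `tr (w i * w j) = 0` for all `i` and `j` (also for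
`i = j`), whose eigenvalues are units of `O`. -/
def HasUnitRoots (T : Submodule K A) (tr : A →ₗ[K] K) (ρ : Γ →* (A ≃ₐ[K] A)) (F : Γ) (m : ℕ) :
    Prop :=
  ∀ O : ValuationSubring K, ∃ (r : ℕ) (w : Fin m → A) (α : Fin m → K), 0 < r ∧
    LinearIndependent K w ∧ (∀ i, w i ∈ T) ∧ (∀ i j, tr (w i * w j) = 0) ∧
    ∀ i, ρ (F ^ r) (w i) = α i • w i ∧ α i ∈ O ∧ (α i)⁻¹ ∈ O

/-- The form of the generalized Tate conjecture for the grading `gr` and the filtration `N` of `A`: for
all subgroups `Δ` of finite index and all `i` and `ν`, all `Δ`-stable subspaces `U` of `gr i` such that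
`U(ν)` is effective are contained in `N ν`. -/
def GTCForm (χ : Γ →* Kˣ) (𝓟 : Set Γ) (ρ : Γ →* (A ≃ₐ[K] A)) (gr N : ℕ → Submodule K A) : Prop :=
  ∀ Δ : Subgroup Γ, Δ.FiniteIndex → ∀ (i ν : ℕ) (U : Submodule K A), U ≤ gr i →
    IsStable ρ Δ U → IsEffective χ 𝓟 ρ Δ ν U → U ≤ N ν

/-- The algebra `A` is the field `K` (this is so for the cohomology of a point). -/
def IsOneDimensional (K : Type) [Field K] (A : Type) [Ring A] [Algebra K A] : Prop :=
  Submodule.span K {(1 : A)} = ⊤

/-- For some `F` in `𝓟` the number `χ(F)` is an integer greater than one. -/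
def HasIntegralNorm (χ : Γ →* Kˣ) (𝓟 : Set Γ) : Prop :=
  ∃ F ∈ 𝓟, ∃ q : ℕ, 1 < q ∧ (χ F : K) = q

/-- The span of the elements `x` with `R x`. -/
def spanOf (K : Type) [Field K] {B : Type} [AddCommGroup B] [Module K B] (R : B → Prop) :
    Submodule K B := Submodule.span K {x | R x}

/-- The element `x` is in the image of `f`. -/
def InImage {B C : Type} [AddCommGroup B] [Module K B] [AddCommGroup C] [Module K C]
    (f : B →ₗ[K] C) (x : C) : Prop := ∃ y, f y = x

end Alg

open Pool.Agent.H914 Pool.Agent.H914.VarClass Pool.Agent.H914.VarClass.Obj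
  Pool.Agent.H914.WeilCohomology

variable {k : Type} [Field k] {𝒱 : VarClass k} {ops : CycleOps 𝒱}
  {W : WeilCohomology.{0, 0} ops} {Γ : Type} [Group Γ] {ι : Type}

/-- The class `x` on `Y` is the image under a Gysin homomorphism of a class on a variety of dimension
at most `dim Y - ν`. -/
def IsGysin (W : WeilCohomology.{0, 0} ops) (ν : ℕ) (Y : 𝒱.Obj) (x : W.H Y) : Prop :=
  ∃ (Y' : 𝒱.Obj) (f : Y' ⟶ Y), Y'.dim + ν ≤ Y.dim ∧ InImage (W.push f) x

/-- The coniveau filtration `N^ν H(Y)`: the subspace spanned by the images of the Gysin homomorphisms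
of all morphisms to `Y` of varieties of dimension at most `dim Y - ν`. -/
def coniveau (W : WeilCohomology.{0, 0} ops) (Y : 𝒱.Obj) (ν : ℕ) : Submodule W.K (W.H Y) :=
  spanOf W.K (IsGysin W ν Y)

/-- The classes of the cycles of codimension `j` lie in `N^j`. (The class of a subvariety is the
image of a multiple of `1` under the Gysin homomorphism of an alteration.) -/
def CyclesHaveConiveau (W : WeilCohomology.{0, 0} ops) : Prop :=
  ∀ (Y : 𝒱.Obj) (j : ℕ) (z : Y.Cycles), Y.IsCyc j z → W.cl Y z ∈ coniveau W Y j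

/-- The generalized Tate conjecture for `Y`, with the effectivity tested by the Frobenius elements in
`𝓟`: for all subgroups `Δ` of finite index and all `i` and `ν`, all `Δ`-stable subspaces `U` of `H^i(Y)`
such that `U(ν)` is effective are contained in `N^ν H(Y)`. -/
def GTC (χ : Γ →* W.Kˣ) (𝓟 : Set Γ) (Y : GVar W Γ) : Prop :=
  GTCForm χ 𝓟 Y.act (W.gr Y.X) (coniveau W Y.X)

/-- The group acts on the cohomology of `Z` and of the `Y i` like a Galois group; homological and
numerical equivalence coincide for the `Y i`; every `Y i` satisfies `ParityCondition`: its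
transcendental cohomology is in the middle degree and irreducible under all subgroups of finite
index, and there are elements as in `FiniteCondition` or `LocalCondition`; all `F` in `𝓟` have `m i`
isotropic eigenvectors as in `HasUnitRoots` in the transcendental cohomology of `Y i`; and `2 * m i` is
less than its dimension if the dimension of `Y i` is even. -/
structure UnitFamily (χ : Γ →* W.Kˣ) (𝓟 : Set Γ) (Y : ι → GVar W Γ) (Z : GVar W Γ) (m : ι → ℕ) :
    Prop where
  galois : ∀ i, IsGaloisVar χ (Y i)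
  galois_base : IsGaloisVar χ Z
  homEqNum : ∀ i, HomEqNum W (Y i).X
  cond : ∀ i, ParityCondition (Y i).X.dim χ (transcendental W (Y i).X)
    (W.gr (Y i).X (Y i).X.dim) (Y i).act (trivialOn Y Z i) (eigenvaluesIn Y Z i)
  unit : ∀ i, ∀ F ∈ 𝓟,
    HasUnitRoots (transcendental W (Y i).X) (W.tr (Y i).X) (Y i).act F (m i)
  bound : ∀ i, EvenBound (Y i).X.dim (2 * m i) (transcendental W (Y i).X)

/-- The varieties `T = Y_1^(n_1) × (Y_2^(n_2) × ( ⋯ × Z))`, where the `Y_i` are pairwise different
members of the family (`S` is the set of the indices) and `1 ≤ n_i ≤ m i`. -/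
inductive PowTower (Y : ι → GVar W Γ) (Z : GVar W Γ) (m : ι → ℕ) : Set ι → GVar W Γ → Prop
  | base : PowTower Y Z m ∅ Z
  | step {S T P U} (i : ι) (n : ℕ) : PowTower Y Z m S T → i ∉ S → n + 1 ≤ m i →
      IsPow (Y i) n P → IsProd P T U → PowTower Y Z m (insert i S) U

end Run7.h190.GT
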