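import Pool.Agent.Run7.h190.GT.Pattern

/-!
# The generalized Tate conjecture for products with powers: the step
-/

open CategoryTheory AlgebraicGeometry Finset Function

set_option linter.unusedSectionVars false
set_option linter.deprecated false

universe u

namespace Run7.h190.GT

open Pool.Agent.TH125.Gal Pool.Agent.TH118.SG
open Pool.Agent.H914 Pool.Agent.H914.VarClass Pool.Agent.H914.VarClass.Obj
  Pool.Agent.H914.WeilCohomology Pool.Agent.H281R3.HT Pool.Agent.W552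

variable {k : Type u} [Field k] {𝒱 : VarClass k} {ops : CycleOps 𝒱}
  {W : WeilCohomology.{u, 0} ops} {P : Polarized 𝒱} {n : ℕ} {Z : 𝒱.Obj}
  {Γ : Type} [Group Γ] {χ : Γ →* W.Kˣ} {ρ : Γ →* (W.H P.X ≃ₐ[W.K] W.H P.X)}
  {τ : Γ →* (W.H Z ≃ₐ[W.K] W.H Z)}
  {υ : Γ →* (W.H ((nest ops n fun _ => P).X.prod Z) ≃ₐ[W.K]
    W.H ((nest ops n fun _ => P).X.prod Z))} {𝓟 : Set Γ}

/-- **From `Z` to the products with powers.** -/
theorem gt_step
    (hcyc : ∀ (Y : 𝒱.Obj) (j : ℕ) (z : Y.Cycles), Y.IsCyc j z → W.cl Y z ∈ cv W j Y)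
    (hDX : HomEqNum W P.X) (hmid : transcendental W P.X ≤ W.gr P.X P.X.dim)
    (hG : IsGalois W χ P.X ρ) (hP : IsPowAct W P n Z ρ τ υ)
    (hn : Even P.X.dim → 2 * (n + 1) < Module.finrank W.K (transcendental W P.X))
    (hfull : FullEnd χ hG τ)
    (hord : ∀ F ∈ 𝓟, UnitEig (rform W P.X (transcendental W P.X)) (rhoT hG) F (n + 1))
    (hSS : SSF (fun g => lin υ g)) (hT : GTU 𝓟 χ τ) : GTU 𝓟 χ υ := by
  obtain ⟨s⟩ := exists_SB hDX
  obtain ⟨b, hb⟩ := exists_monoBasis (ops := ops) P s.e n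
  obtain ⟨Δ', hΔ', hfix⟩ := exists_fix hG s
  intro Δ₀ hΔ₀ ν U hst hU c hc
  set Δ := Δ₀ ⊓ Δ' with hΔ
  replace hst := hst.mono (Δ' := Δ) inf_le_left
  replace hU := hU.mono (Δ' := Δ) inf_le_left
  rw [sum_FF hb c]
  refine Submodule.sum_mem _ fun c₀ _ => ?_
  have hact : ∀ g ∈ Δ', ∀ c, hSL hb c₀ (lin υ g c) =
      (χ g : W.K) ^ (P.X.dim * Fintype.card (Free c₀) + cod s c₀) •
      act (rhoT hG) (lin τ) (Free c₀) g (hSL hb c₀ c) := fun g hg c =>
    hSL_act hb hG hP (hfix g hg) c₀ c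
  have hχ0 : ∀ g, (χ g : W.K) ^ (P.X.dim * Fintype.card (Free c₀) + cod s c₀) ≠ 0 :=
    fun g => pow_ne_zero _ (Units.ne_zero _)
  rcases Nat.lt_or_ge (cod s c₀) ν with hν | hν
  · have heven : (-1 : ℤ) ^ P.X.dim = 1 → Even P.X.dim := by
      intro h
      by_contra h'
      rw [(Nat.not_even_iff_odd.1 h').neg_one_pow] at h
      exact absurd h (by decide)
    have hcard : Fintype.card (Free c₀) ≤ n + 1 := by
      have h1 := Fintype.card_subtype_le (fun p : Fin (n + 1) => c₀ p = none)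
      rwa [Fintype.card_fin] at h1
    have hgood := good_of_eff (n := P.X.dim) (μ := χ ^ P.X.dim) (χ := χ) (ρ := rhoT hG)
      (τ := lin τ) (B := rform W P.X (transcendental W P.X))
      (fun g x y => by
        rw [MonoidHom.pow_apply, Units.val_pow_eq_pow_val]
        exact bil_act hG g x y)
      (fun g => MonoidHom.pow_apply _ _ _) (s := (-1) ^ P.X.dim) (neg_one_pow_eq_or ℤ _)
      (fun a b => by
        rw [rform_apply, rform_apply, trans_symm hmid a.2 b.2]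
        push_cast
        rfl)
      (trans_nondeg hDX) hfull (𝓟 := 𝓟) (m := n + 1) hord (N := fun ν => cv W ν Z)
      (eq_top_iff.2 fun x _ => mem_cv_zero x) hT (Fintype.card (Free c₀)) (Free c₀) rfl hcard
      (fun h => by have := hn (heven h); omega)
      (ssf_of_surj hSS (hSL hb c₀) (hSL_surj hb c₀) _ hχ0 hΔ' hact)
      (ν - cod s c₀) Δ inferInstance (U.map (hSL hb c₀)) (by
        rintro g hg _ ⟨u, hu, rfl⟩
        refine ⟨((χ g : W.K) ^ (P.X.dim * Fintype.card (Free c₀) + cod s c₀))⁻¹ • lin υ g u,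
          Submodule.smul_mem _ _ (hst g hg u hu), ?_⟩
        rw [map_smul, hact g hg.2, smul_smul, inv_mul_cancel₀ (hχ0 g), one_smul])
      (by
        rintro F hF k hk hFk b' _ ⟨u, hu, rfl⟩ hu0 hub
        obtain ⟨z, hz0, hz⟩ := eig_transfer (V := U) ((lin υ (F ^ k)).restrict (hst _ hFk))
          (hSL hb c₀ ∘ₗ U.subtype)
          ((χ (F ^ k) : W.K) ^ (P.X.dim * Fintype.card (Free c₀) + cod s c₀) •
            act (rhoT hG) (lin τ) (Free c₀) (F ^ k))
          (fun x => hact _ hFk.2 x) U.subtype (lin υ (F ^ k)) (c := 1)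
          (fun x => by rw [one_smul]; rfl)
          (fun x hx => by
            have h2 : (x : W.H ((nest ops n fun _ => P).X.prod Z)) = 0 := hx
            rw [LinearMap.comp_apply, Submodule.subtype_apply, h2, map_zero])
          (a := (χ (F ^ k) : W.K) ^ (P.X.dim * Fintype.card (Free c₀) + cod s c₀) * b')
          (y := ⟨u, hu⟩) hu0
          (by
            change (χ (F ^ k) : W.K) ^ (P.X.dim * Fintype.card (Free c₀) + cod s c₀) •
              act (rhoT hG) (lin τ) (Free c₀) (F ^ k) (hSL hb c₀ u) = _ • hSL hb c₀ u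
            rw [hub, smul_smul])
        have h4 := hU F hF k hk hFk _ _ z.2 hz0 hz
        have hχ1 : (χ (F ^ k) : W.K) ≠ 0 := Units.ne_zero _
        convert h4 using 1
        rw [one_mul, mul_comm _ b', mul_assoc, ← zpow_natCast (χ (F ^ k) : W.K)
          (P.X.dim * Fintype.card (Free c₀) + cod s c₀), ← zpow_add₀ hχ1]
        congr 2
        push_cast [Nat.cast_sub hν.le]
        ring)
      (hSL hb c₀ c) ⟨c, hc, rfl⟩
    exact cv_anti (by omega) (FF_mem hb hcyc hDX hmid hgood)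
  · have hgood : Good (fun ν => cv W ν Z) (rform W P.X (transcendental W P.X)) P.X.dim (Free c₀) 0
        (hS s b c c₀) := Good.val fun s => mem_cv_zero _
    exact cv_anti (by omega) (FF_mem hb hcyc hDX hmid hgood)

theorem snd_inj {A : 𝒱.Obj} {κ : W.H A} (hκ : W.tr A κ ≠ 0) {x : W.H Z}
    (h : W.map (snd A Z) x = 0) : x = 0 := by
  have h1 := W.push_snd (X := A) (Y := Z) κ x
  rw [h, mul_zero, map_zero] at h1
  exact (smul_eq_zero.1 h1.symm).resolve_left hκ

/-- **From the products to `Z`.** -/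
theorem gt_conv
    (hcyc : ∀ (Y : 𝒱.Obj) (j : ℕ) (z : Y.Cycles), Y.IsCyc j z → W.cl Y z ∈ cv W j Y)
    (hDX : HomEqNum W P.X) (h1 : (1 : W.H P.X) ≠ 0) (hP : IsPowAct W P n Z ρ τ υ)
    (hT : GTU 𝓟 χ υ) : GTU 𝓟 χ τ := by
  obtain ⟨a, ha, ha0⟩ := exists_pt hDX h1
  set A := (nest ops n fun _ => P).X with hA
  set κ : W.H A := mono (prj ops n fun _ => P) fun _ => a with hκ
  have hκt : W.tr A κ ≠ 0 := by
    rw [hκ, tr_mono]
    exact pow_ne_zero _ ha0
  have hκa : κ ∈ algSpan W A := mono_alg _ fun _ => alg_mem ha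
  have hκg : κ ∈ W.gr A (2 * A.dim) := by
    have h2 : κ ∈ W.gr A (2 * ((List.finRange (n + 1)).map fun _ => P.X.dim).sum) := by
      rw [hκ, mono, List.ofFn_eq_map]
      exact prod_gr _ _ _ fun p _ => W.map_mem _ (alg_gr ha)
    by_contra hne
    apply hκt
    refine W.tr_eq_zero h2 fun h3 => hne ?_
    rwa [h3] at h2
  intro Δ hΔ ν U hst hU c hc
  have h3 := hT Δ hΔ ν (U.map (W.map (snd A Z)).toLinearMap) (by
    rintro g hg _ ⟨u, hu, rfl⟩
    exact ⟨τ g u, hst g hg u hu, ((hP g).2 u).symm⟩) (by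
    rintro F hF k hk hFk b' _ ⟨u, hu, rfl⟩ hu0 hub
    refine hU F hF k hk hFk b' u hu (fun h => hu0 (by rw [h, map_zero])) ?_
    have h4 : W.map (snd A Z) (lin τ (F ^ k) u - b' • u) = 0 := by
      rw [map_sub, map_smul, sub_eq_zero]
      exact ((hP (F ^ k)).2 u).symm.trans hub
    exact sub_eq_zero.1 (snd_inj hκt h4)) ⟨c, hc, rfl⟩
  have h4 := alg_mul_cv hcyc (i := A.dim) (algSpan_gr (algSpan_map (fst A Z) hκa) (W.map_mem _ hκg)) h3
  have h5 := push_cv (W := W) (j' := ν) (snd A Z) (by rw [dim_prod]; omega) h4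
  have h6 : W.push (snd A Z) (W.map (fst A Z) κ * W.map (snd A Z) c) ∈ cv W ν Z := h5
  rw [W.push_snd] at h6
  have h7 := Submodule.smul_mem _ (W.tr A κ)⁻¹ h6
  rwa [smul_smul, inv_mul_cancel₀ hκt, one_smul] at h7

/-! ### the grading -/

/-- The generalized Tate conjecture. -/
def GTG (𝓟 : Set Γ) (χ : Γ →* W.Kˣ) {A : 𝒱.Obj} (τ : Γ →* (W.H A ≃ₐ[W.K] W.H A)) : Prop :=
  ∀ Δ : Subgroup Γ, Δ.FiniteIndex → ∀ (i ν : ℕ) (U : Submodule W.K (W.H A)), U ≤ W.gr A i →
    Stab (fun g => lin τ g) Δ U → EffF (fun g => lin τ g) 𝓟 χ (-(ν : ℤ)) Δ U → U ≤ cv W ν A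

theorem gtg_iff {A : 𝒱.Obj} {τ : Γ →* (W.H A ≃ₐ[W.K] W.H A)}
    (hgr : ∀ g i, ∀ a ∈ W.gr A i, τ g a ∈ W.gr A i) : GTG 𝓟 χ τ ↔ GTU 𝓟 χ τ := by
  refine ⟨fun h Δ hΔ ν U hst hU c hc => ?_, fun h Δ hΔ i ν U _ hst hU => h Δ hΔ ν U hst hU⟩
  have hcomm : ∀ g i x, proj (W.isInternal A) i (τ g x) = τ g (proj (W.isInternal A) i x) := by
    intro g i x
    refine gr_induction (W.isInternal A)
      (p := fun x => proj (W.isInternal A) i (τ g x) = τ g (proj (W.isInternal A) i x)) ?_ ?_ x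
    · intro j x hx
      by_cases hij : j = i
      · subst hij
        rw [proj_same _ hx, proj_same _ (hgr g _ x hx)]
      · rw [proj_ne _ hx hij, proj_ne _ (hgr g _ x hx) hij, map_zero]
    · intro x y hx hy
      rw [map_add, map_add, map_add, map_add, hx, hy]
  have h1 : c = ∑ i ∈ Finset.range (2 * A.dim + 1), proj (W.isInternal A) i c := by
    have h2 := sum_proj (W.isInternal A) (N := 2 * A.dim + 1)
      (fun i hi => W.gr_eq_bot A i (by omega))
    have h3 := LinearMap.congr_fun h2 c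
    rw [LinearMap.sum_apply] at h3
    exact h3.symm
  rw [h1]
  refine Submodule.sum_mem _ fun i _ => ?_
  refine h Δ hΔ i ν (U.map (proj (W.isInternal A) i)) ?_ ?_ ?_ ⟨c, hc, rfl⟩
  · rintro _ ⟨u, _, rfl⟩
    exact proj_mem _ _ _
  · rintro g hg _ ⟨u, hu, rfl⟩
    exact ⟨τ g u, hst g hg u hu, hcomm g i u⟩
  · rintro F hF k hk hFk b' _ ⟨u, hu, rfl⟩ hu0 hub
    obtain ⟨z, hz0, hz⟩ := eig_transfer (V := U) ((lin τ (F ^ k)).restrict (hst _ hFk))
      (proj (W.isInternal A) i ∘ₗ U.subtype) (lin τ (F ^ k))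
      (fun x => hcomm _ i x) U.subtype (lin τ (F ^ k)) (c := 1)
      (fun x => by rw [one_smul]; rfl)
      (fun x hx => by
        have h2 : (x : W.H A) = 0 := hx
        rw [LinearMap.comp_apply, Submodule.subtype_apply, h2, map_zero])
      (a := b') (y := ⟨u, hu⟩) hu0 hub
    rw [one_mul] at hz
    exact hU F hF k hk hFk _ _ z.2 hz0 hz

end Run7.h190.GT
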