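import Pool.Agent.Run7.h190.GT.Ends
import Pool.Agent.Run7.h190.GT.Pub

/-!
# The generalized Tate conjecture for towers
-/

open CategoryTheory AlgebraicGeometry Finset

set_option linter.unusedSectionVars false
set_option linter.deprecated false

namespace Run7.h190.GT

open Pool.Agent Pool.Agent.TH125.Gal Pool.Agent.TH118.SG Pool.Agent.V11219.IsoF
  Pool.Agent.V11219.Loc Pool.Agent.V11219.Quad Run7.h190.EV
open Pool.Agent.H914 Pool.Agent.H914.VarClass Pool.Agent.H914.VarClass.Obj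
  Pool.Agent.H914.WeilCohomology Pool.Agent.H281R3.HT Pool.Agent.W552 Pool.Agent.H447

variable {k : Type} [Field k] {𝒱 : VarClass k} {ops : CycleOps 𝒱}
  {W : WeilCohomology.{0, 0} ops} {Γ : Type} [Group Γ] {χ : Γ →* W.Kˣ}
  {ι : Type} {X : ι → GVar W Γ} {Z : GVar W Γ} {𝓟 : Set Γ} {m : ι → ℕ}

/-- The Lie algebras of `X i` are full relative to the endomorphisms. -/
def EndFor (χ : Γ →* W.Kˣ) (X : ι → GVar W Γ) (Z : GVar W Γ) (i : ι) : Prop :=
  (∃ t : W.H (X i).X, t ≠ 0) ∧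
  ∀ (hG : Pool.Agent.TH125.Gal.IsGalois W χ (X i).X (X i).act) (Y : 𝒱.Obj)
    (υ : Γ →* (W.H Y ≃ₐ[W.K] W.H Y)),
    (∀ g, (∀ j, j ≠ i → TrivAct (X j).act g) → TrivAct Z.act g → υ g = 1) →
    (∀ (Λ : Subgroup W.Kˣ) g, (∀ j, j ≠ i → EigenvaluesIn Λ (X j).act g) →
      EigenvaluesIn Λ Z.act g → EigA Λ (υ g)) →
    FullEnd (P := ⟨(X i).X, 0⟩) χ hG υ

theorem endFor_fin [IsAlgClosed W.K] {i : ι} (hD : HomEqNum W (X i).X)
    (hmid : transcendental W (X i).X ≤ W.gr (X i).X (X i).X.dim)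
    (hirr : IrredAct (X i).act (transcendental W (X i).X)) (heven : Even (X i).X.dim)
    (hc : FiniteCondition χ (transcendental W (X i).X) (X i).act (eigenvaluesIn X Z i)) :
    EndFor χ X Z i := by
  obtain ⟨hF, Λ, g, hgP, hχ, hfin, α, hα, hiso⟩ := hc
  refine ⟨?_, fun hG Y υ _ hυe => ?_⟩
  · obtain ⟨F, x, hx, y, hy, hx0, -⟩ := hF
    exact ⟨x, hx0⟩
  · exact fullEnd_fin (P := ⟨(X i).X, 0⟩) hD hmid hG heven
      hirr hχ hfin hα hiso hF (hυe Λ g hgP.2 hgP.1)

theorem endFor_odd [IsAlgClosed W.K] {i : ι} (hDX : HomEqNum W (X i).X)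
    (hmid : transcendental W (X i).X ≤ W.gr (X i).X (X i).X.dim)
    (hirr : IrredAct (X i).act (transcendental W (X i).X)) (hodd : Odd (X i).X.dim)
    (hc : LocalCondition χ (transcendental W (X i).X) (X i).act (trivialOn X Z i)
      (eigenvaluesIn X Z i)) : EndFor χ X Z i := by
  rcases hc with ⟨g, hgM, hg⟩ | ⟨hF, Λ, g, hgP, hχ, hg⟩
  · have hg' : CoprimeDefects (transcendental W (X i).X) (X i).act
        {g | χ g = 1 ∧ g ∈ trivialOn X Z i} g := hg
    refine ⟨exists_ne_of_coprime (P := ⟨(X i).X, 0⟩) hg', fun hG Y υ hυ _ => ?_⟩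
    exact fullEnd_quad (P := ⟨(X i).X, 0⟩) hDX hmid hG hodd
      hirr (M := {g | χ g = 1 ∧ g ∈ trivialOn X Z i}) (fun g hg => hg.1)
      (fun g hg => hυ g hg.2.2 hg.2.1) hgM hg'
  · have hg' : IsolatedAct Λ (transcendental W (X i).X) (X i).act g := isolatedAct_of hg
    refine ⟨?_, fun hG Y υ _ hυe => ?_⟩
    · obtain ⟨F, x, hx, y, hy, hx0, -⟩ := hF
      exact ⟨x, hx0⟩
    · exact fullEnd_iso (P := ⟨(X i).X, 0⟩) hDX hmid hG hodd
        hirr hχ hg' hF (hυe Λ g hgP.2 hgP.1)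

theorem UnitFamily.endFor [IsAlgClosed W.K] (h : UnitFamily χ 𝓟 X Z m) (i : ι) :
    EndFor χ X Z i :=
  (Nat.even_or_odd (X i).X.dim).elim
    (fun hi => endFor_fin (h.homEqNum i) (h.cond i).1 (h.cond i).2.1 hi ((h.cond i).2.2.1 hi))
    (fun hi => endFor_odd (h.homEqNum i) (h.cond i).1 (h.cond i).2.1 hi ((h.cond i).2.2.2 hi))

/-- unit eigenvectors -/
theorem unitEig_of {i : ι} {F : Γ} {M n : ℕ} (hn : n ≤ M)
    (h : HasUnitRoots (transcendental W (X i).X) (W.tr (X i).X) (X i).act F M)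
    (hG : Pool.Agent.TH125.Gal.IsGalois W χ (X i).X (X i).act) :
    UnitEig (rform W (X i).X (transcendental W (X i).X))
      (rhoT hG) F n := by
  intro O
  obtain ⟨r, w, α, hr, hw, hwT, hww, hα⟩ := h O
  refine ⟨r, fun j => ⟨w (Fin.castLE hn j), hwT _⟩, fun j => α (Fin.castLE hn j), hr, ?_,
    fun a b => hww _ _, fun a => ⟨Subtype.ext (hα _).1, (hα _).2⟩⟩
  have h1 : LinearIndependent W.K fun j => w (Fin.castLE hn j) :=
    hw.comp _ (Fin.castLE_injective hn)
  exact LinearIndependent.of_comp (transcendental W (X i).X).subtype h1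

theorem PowTower.twr (hM : ∀ i, EvenBound (X i).X.dim (2 * m i) (transcendental W (X i).X))
    {S : Set ι} {T : GVar W Γ} (h : PowTower X Z m S T) : Twr X Z S T := by
  induction h with
  | base => exact Twr.base
  | @step S T P U i n _ hi hn hP hU ih =>
    refine Twr.step i n ih hi (fun he => ?_) hP hU
    have := hM i he
    omega

/-- **The generalized Tate conjecture for towers.** -/
theorem gtu_tower [IsAlgClosed W.K]
    (hcyc : ∀ (Y : 𝒱.Obj) (j : ℕ) (z : Y.Cycles), Y.IsCyc j z → W.cl Y z ∈ cv W j Y)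
    (h : UnitFamily χ 𝓟 X Z m) {S : Set ι} {T : GVar W Γ} (hT : PowTower X Z m S T)
    (hSS : SSF (fun g => lin T.act g)) : GTU 𝓟 χ T.act ↔ GTU 𝓟 χ Z.act := by
  induction hT with
  | base => exact Iff.rfl
  | @step S T P U i n hT hi hn hP hU ih =>
    have htow := (hT.twr h.bound).tower
    obtain ⟨ν, rfl, hν⟩ := hP.eq
    obtain ⟨υ, ⟨h1, h2⟩, rfl⟩ := hU
    have h3 : ∀ p, Intertwines (W.map (fst (power ops (X i).X n) T.X ≫
        powerPrj ops (X i).X n p)) (X i).act υ := by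
      intro p g a
      have h3 : ∀ a, W.map (fst (power ops (X i).X n) T.X ≫ powerPrj ops (X i).X n p) a =
          W.map (fst (power ops (X i).X n) T.X) (W.map (powerPrj ops (X i).X n p) a) :=
        fun a => W.map_comp _ _ a
      rw [h3, h3]
      have h4 := h1 g (W.map (powerPrj ops (X i).X n p) a)
      exact h4.trans (congrArg _ (hν p g a))
    have hPA := isPowAct h3 h2
    have hDX := h.homEqNum i
    obtain ⟨⟨t, ht⟩, hfull⟩ := h.endFor i
    have hone : (1 : W.H (X i).X) ≠ 0 := fun h3 => ht (by rw [← one_mul t, h3, zero_mul])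
    have hG := isGalois (h.galois i)
    have hfull' := hfull hG T.X T.act
      (fun g h1 h2 => trivAct.1 (htow.trivAct (fun j hj => h1 j fun h0 => hi (h0 ▸ hj)) h2))
      (fun Λ g h1 h2 => eig_tower htow (fun j hj => h1 j fun h0 => hi (h0 ▸ hj)) h2)
    have hSST : SSF (fun g => lin T.act g) := by
      obtain ⟨a, ha, ha0⟩ := exists_pt hDX hone
      refine ssf_of_inj (σ := fun g => lin υ g) hSS
        (W.map (snd (power ops (X i).X n) T.X)).toLinearMap ?_ (fun _ => 1)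
        (fun _ => one_ne_zero) (fun g x => ?_)
      · rw [injective_iff_map_eq_zero]
        intro x hx
        refine snd_inj (κ := mono (prj ops n fun _ => (⟨(X i).X, 0⟩ : Polarized 𝒱)) fun _ => a)
          ?_ hx
        have h4 := tr_mono (W := W) (⟨(X i).X, 0⟩ : Polarized 𝒱) a n
        intro h5
        exact pow_ne_zero (n + 1) ha0 (h4.symm.trans h5)
      · rw [one_smul]
        exact (h2 g x).symm
    rw [← ih hSST]
    constructor
    · exact gt_conv (P := ⟨(X i).X, 0⟩) hcyc hDX hone hPA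
    · refine gt_step (P := ⟨(X i).X, 0⟩) hcyc hDX (h.cond i).1 hG hPA (fun he => ?_) hfull'
        (fun F hF => unitEig_of (by omega) (h.unit i F hF) hG) hSS
      have := h.bound i he
      have h5 : 2 * (n + 1) ≤ 2 * m i := by omega
      exact lt_of_le_of_lt h5 this

theorem coniveau_eq (W : WeilCohomology.{0, 0} ops) (Y : 𝒱.Obj) (ν : ℕ) :
    coniveau W Y ν = cv W ν Y := by
  apply le_antisymm
  · refine Submodule.span_le.2 ?_
    rintro x ⟨Y', f, h, y, rfl⟩
    exact push_mem_cv f h y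
  · refine Submodule.span_le.2 ?_
    rintro x ⟨Y', f, y, h, rfl⟩
    exact Submodule.subset_span ⟨Y', f, h, y, rfl⟩

theorem cyc_iff : CyclesHaveConiveau W ↔
    ∀ (Y : 𝒱.Obj) (j : ℕ) (z : Y.Cycles), Y.IsCyc j z → W.cl Y z ∈ cv W j Y := by
  unfold CyclesHaveConiveau
  simp only [coniveau_eq]

theorem gtc_pub {Y : GVar W Γ} (hY : IsGaloisVar χ Y) :
    Run7.h190.GT.GTC χ 𝓟 Y ↔ GTU 𝓟 χ Y.act := by
  rw [← gtg_iff (isGalois hY).gr_mem]
  have key : ∀ (Δ : Subgroup Γ) (ν : ℕ) (U : Submodule W.K (W.H Y.X)),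
      IsEffective χ 𝓟 Y.act Δ ν U ↔ EffF (fun g => lin Y.act g) 𝓟 χ (-(ν : ℤ)) Δ U := by
    intro Δ ν U
    have h1 : ∀ (a : W.K) (g : Γ), a / (χ g : W.K) ^ ν = a * (χ g : W.K) ^ (-(ν : ℤ)) := by
      intro a g
      rw [zpow_neg, zpow_natCast, div_eq_mul_inv]
    constructor
    · intro h F hF k hk hFk a u hu hu0 hau
      rw [← h1]
      exact h F hF k hk hFk a u hu hu0 hau
    · intro h F hF k hk hFk a u hu hu0 hau
      rw [h1]
      exact h F hF k hk hFk a u hu hu0 hau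
  constructor
  · intro h Δ hΔ i ν U hU hst heff
    rw [← coniveau_eq]
    exact h Δ hΔ i ν U hU hst ((key Δ ν U).2 heff)
  · intro h Δ hΔ i ν U hU hst heff
    rw [coniveau_eq]
    exact h Δ hΔ i ν U hU hst ((key Δ ν U).1 heff)

end Run7.h190.GT
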